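import Pool.Agent.X292.TG.Form

/-!
# One constituent
-/

set_option linter.unusedSectionVars false

namespace Pool.Agent.X292.TG

open TensorProduct Module Function Finset Pool.Agent.TH125.Gal Pool.Agent.Y127.G
  Pool.Agent.Y127.C Pool.Agent.TH118.SG

variable {K : Type} [Field K] [CharZero K] {P G : Type} [Group P] [Group G] {ι : Type}
  {T : ι → Type} [∀ i, AddCommGroup (T i)] [∀ i, Module K (T i)] [∀ i, FiniteDimensional K (T i)]
  {ρ : ∀ i, P →* (T i →ₗ[K] T i)} {σ : ∀ i, G →* (T i →ₗ[K] T i)}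

/-- translates of fixed forms under the group itself -/
theorem fixd_self {S : Type} [Fintype S] [DecidableEq S] (γ : P) (s : S → ι)
    (f : MultilinearMap K (fun j => T (s j)) K) (h : Fixd ρ s f) :
    Fixd ρ s (f.compLinearMap fun j => ρ (s j) γ) := by
  obtain ⟨Δ, hΔ, h1⟩ := h
  have hf : (Δ.comap (MulAut.conj γ).toMonoidHom).FiniteIndex := by
    constructor
    rw [Subgroup.index_comap_of_surjective _ (MulAut.conj γ).surjective]
    exact hΔ.index_ne_zero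
  refine ⟨_, hf, fun g hg v => ?_⟩
  rw [MultilinearMap.compLinearMap_apply, MultilinearMap.compLinearMap_apply]
  refine Eq.trans (congrArg f (funext fun j => ?_)) (h1 (γ * g * γ⁻¹) hg _)
  rw [rho_mul_apply, rho_mul_apply, rho_inv']

variable {i : ι} {B : T i →ₗ[K] T i →ₗ[K] K} (hsy : ∀ x y, B x y = B y x)
  (hnd : ∀ x, (∀ y, B x y = 0) → x = 0) (hρ : ∀ g x y, B (ρ i g x) (ρ i g y) = B x y)
  (hσ : ∀ g x y, B (σ i g x) (σ i g y) = B x y) (hSI : SI (σ i))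
  (hn : ∀ (γ : G) (S : Type) [Fintype S] [DecidableEq S] (s : S → ι)
    (f : MultilinearMap K (fun j => T (s j)) K), Fixd ρ s f →
      Fixd ρ s (f.compLinearMap fun j => σ (s j) γ))

include hρ in
theorem rs_skew : ∀ A ∈ rs (LL ρ) i, Skew B A := by
  rintro _ ⟨D, hD, rfl⟩
  exact LL_skew hρ hD

theorem rs_br : ∀ A ∈ rs (LL ρ) i, ∀ A' ∈ rs (LL ρ) i, br A A' ∈ rs (LL ρ) i := by
  rintro _ ⟨D, hD, rfl⟩ _ ⟨D', hD', rfl⟩
  exact ⟨bk D D', LL_bk D hD D' hD', rfl⟩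

include hn in
theorem rs_conj : ∀ γ : G, ∀ A ∈ rs (LL ρ) i,
    (σ i γ * A * σ i γ⁻¹ : Module.End K (T i)) ∈ rs (LL ρ) i := by
  rintro γ _ ⟨D, hD, rfl⟩
  exact ⟨_, LL_conj (σ := σ) (fun S _ _ s f hf => hn γ S s f hf) hD, rfl⟩

include hsy hnd hρ hσ hSI hn in
/-- **A unipotent element.** -/
theorem all_of_log {g : P} (h3 : (ρ i g - 1) ^ 3 = 0) (h2 : (ρ i g - 1) ^ 2 ≠ 0)
    (hr : finrank K (LinearMap.range (ρ i g - 1 : Module.End K (T i))) ≤ 2) (x y : T i) :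
    oo B 1 x y ∈ rs (LL ρ) i := by
  obtain ⟨D, hD, h⟩ := exists_log ρ g
  have hDi := h i h3
  set U : Module.End K (T i) := ρ i g - 1 with hU
  clear_value U
  have e2 : (D i : Module.End K (T i)) ^ 2 = U ^ 2 := by
    rw [hDi]
    have h4 : U ^ 4 = 0 := by rw [pow_succ, h3, zero_mul]
    have e : (U - (2⁻¹ : K) • U ^ 2) ^ 2 = U ^ 2 - U ^ 3 + (2⁻¹ * 2⁻¹ : K) • U ^ 4 := by
      have e1 : (U - (2⁻¹ : K) • U ^ 2) ^ 2 = U ^ 2 - (2⁻¹ + 2⁻¹ : K) • U ^ 3 +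
          (2⁻¹ * 2⁻¹ : K) • U ^ 4 := by
        rw [pow_two (U - (2⁻¹ : K) • U ^ 2), sub_mul, mul_sub, mul_sub, smul_mul_smul_comm,
          mul_smul_comm, smul_mul_assoc, ← pow_two, ← pow_succ, ← pow_succ', ← pow_add, add_smul]
        abel
      rw [e1]
      norm_num
    rw [e, h3, h4, smul_zero, sub_zero, add_zero]
  have e3 : (D i : Module.End K (T i)) ^ 3 = 0 := by
    have h4 : U ^ 4 = 0 := by rw [pow_succ, h3, zero_mul]
    rw [pow_succ, e2, hDi, mul_sub, mul_smul_comm, ← pow_succ, ← pow_add, h3, h4, smul_zero,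
      sub_zero]
  refine full_of_log (σ := σ i) hsy hnd hσ hSI (rs_skew hρ) rs_br (rs_conj hn)
    (N := D i) ⟨D, hD, rfl⟩ e3 (by rw [e2]; exact h2) (le_trans (Submodule.finrank_mono ?_) hr) x y
  rintro _ ⟨x, rfl⟩
  refine ⟨x - (2⁻¹ : K) • U x, ?_⟩
  rw [hDi, map_sub, map_smul, LinearMap.sub_apply, LinearMap.smul_apply, pow_two,
    Module.End.mul_apply]

include hsy hnd hρ hσ hSI hn in
/-- **A reflection and an element of infinite order.** -/
theorem all_of_refl {r : P} {δ : T i} (hδ : ∀ x, ∃ c : K, ρ i r x = x + c • δ)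
    (hr1 : ρ i r ≠ 1) {g : P} (hinf : ∀ n : ℕ, 0 < n → (ρ i g) ^ n ≠ 1) (x y : T i) :
    oo B 1 x y ∈ rs (LL ρ) i := by
  obtain ⟨D, hD, h0⟩ := exists_ne0 ρ g i hinf
  refine full_of_refl (σ := σ i) hsy hnd hσ hSI (rs_skew hρ) rs_br (rs_conj hn)
    (r := ρ i r) (fun x y => hρ r x y) ?_ hδ hr1 (A₀ := D i) ⟨D, hD, rfl⟩ h0 x y
  rintro _ ⟨E, hE, rfl⟩
  refine ⟨_, ⟨_, LL_conj (σ := ρ) (γ := r) (fun S _ _ s f hf => fixd_self r s f hf) hE, rfl⟩,
    fun x => ?_⟩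
  change (ρ i r * E i * ρ i r⁻¹ : Module.End K (T i)) (ρ i r x) = _
  rw [Module.End.mul_apply, Module.End.mul_apply, rho_inv']
  rfl

end Pool.Agent.X292.TG
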