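import Mathlib

/-!
# Multilinear forms and extensions of fields
-/

set_option linter.unusedSectionVars false

namespace Pool.Agent.X292.TG

open TensorProduct Module Function

section bc

variable {k K : Type} [Field k] [Field K] [Algebra k K] {S : Type} [Fintype S] [DecidableEq S]
  {W : S → Type} [∀ j, AddCommGroup (W j)] [∀ j, Module k (W j)] [∀ j, FiniteDimensional k (W j)]

/-- multilinear forms extend to a larger field -/
theorem exists_bc (f : MultilinearMap k W k) :
    ∃ F : MultilinearMap K (fun j => K ⊗[k] W j) K, ∀ v : ∀ j, W j,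
      F (fun j => (1 : K) ⊗ₜ[k] v j) = algebraMap k K (f v) := by
  classical
  let b := fun j => Module.finBasis k (W j)
  let bK := fun j => (b j).baseChange K
  let F : MultilinearMap K (fun j => K ⊗[k] W j) K :=
    ∑ c : ∀ j, Fin (finrank k (W j)), (algebraMap k K (f fun j => b j (c j))) •
      ((MultilinearMap.mkPiAlgebra K S K).compLinearMap fun j => (bK j).coord (c j))
  refine ⟨F, fun v => ?_⟩
  have h1 : v = fun j => ∑ i, (b j).repr (v j) i • b j i := by
    funext j
    rw [(b j).sum_repr]
  conv_rhs => rw [h1]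
  rw [f.map_sum, map_sum]
  change (∑ c : ∀ j, Fin (finrank k (W j)), (algebraMap k K (f fun j => b j (c j))) •
      ((MultilinearMap.mkPiAlgebra K S K).compLinearMap fun j => (bK j).coord (c j))) _ = _
  rw [MultilinearMap.sum_apply]
  refine Finset.sum_congr rfl fun c _ => ?_
  rw [MultilinearMap.smul_apply, MultilinearMap.compLinearMap_apply,
    MultilinearMap.mkPiAlgebra_apply, f.map_smul_univ, smul_eq_mul, smul_eq_mul, map_mul, map_prod,
    mul_comm]
  congr 1
  refine Finset.prod_congr rfl fun j _ => ?_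
  change ((b j).baseChange K).coord (c j) _ = _
  rw [Basis.coord_apply, Basis.baseChange_repr_tmul, Algebra.smul_def, mul_one]

theorem bc_ext {M : Type} [AddCommGroup M] [Module K M]
    {F F' : MultilinearMap K (fun j => K ⊗[k] W j) M}
    (h : ∀ v : ∀ j, W j, F (fun j => (1 : K) ⊗ₜ[k] v j) = F' (fun j => (1 : K) ⊗ₜ[k] v j)) :
    F = F' := by
  classical
  refine Basis.ext_multilinear (fun j => (Module.finBasis k (W j)).baseChange K) fun c => ?_
  have h1 := h fun j => Module.finBasis k (W j) (c j)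
  simpa only [Basis.baseChange_apply] using h1

end bc

variable {k K : Type} [Field k] [Field K] [Algebra k K] {ι : Type} {T : ι → Type}
  [∀ i, AddCommGroup (T i)] [∀ i, Module k (T i)] [∀ i, FiniteDimensional k (T i)]
  {S : Type} [Fintype S] [DecidableEq S] {s : S → ι}

/-- The family of operators `D` kills the multilinear map `f`:
`∑ j, f (…, D v_j, …) = 0`. -/
def Kil {M : Type} [AddCommGroup M] [Module k M] (s : S → ι) (D : ∀ i, T i →ₗ[k] T i)
    (f : MultilinearMap k (fun j => T (s j)) M) : Prop :=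
  ∀ v : ∀ j, T (s j), ∑ j, f (update v j (D (s j) (v j))) = 0

/-- base change of a family -/
noncomputable def bcD (K : Type) [Field K] [Algebra k K] (D : ∀ i, T i →ₗ[k] T i) :
    ∀ i, (K ⊗[k] T i) →ₗ[K] (K ⊗[k] T i) := fun i => (D i).baseChange K

theorem upd_tmul (v : ∀ j, T (s j)) (j : S) (w : T (s j)) :
    update (fun j => (1 : K) ⊗ₜ[k] v j) j ((1 : K) ⊗ₜ[k] w) =
      fun i => (1 : K) ⊗ₜ[k] (update v j w i) := by
  funext i
  by_cases h : i = j
  · subst h
    rw [update_self, update_self]
  · rw [update_of_ne h, update_of_ne h]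

/-- an operator on one place -/
theorem upd_comp {K : Type} [Field K] {T : ι → Type} [∀ i, AddCommGroup (T i)]
    [∀ i, Module K (T i)] {M : Type} [AddCommGroup M] [Module K M]
    (F : MultilinearMap K (fun j => T (s j)) M) (D : ∀ i, T i →ₗ[K] T i) (j : S)
    (v : ∀ j, T (s j)) :
    F.compLinearMap (fun i => if i = j then D (s i) else LinearMap.id) v =
      F (update v j (D (s j) (v j))) := by
  rw [MultilinearMap.compLinearMap_apply]
  congr 1
  funext i
  by_cases h : i = j
  · subst h
    rw [update_self, if_pos rfl]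
  · rw [update_of_ne h, if_neg h, LinearMap.id_apply]

/-- **Base change of the relation `Kil`.** -/
theorem kil_bc {D : ∀ i, T i →ₗ[k] T i} {f : MultilinearMap k (fun j => T (s j)) k}
    {F : MultilinearMap K (fun j => K ⊗[k] T (s j)) K}
    (hF : ∀ v : ∀ j, T (s j), F (fun j => (1 : K) ⊗ₜ[k] v j) = algebraMap k K (f v)) :
    Kil s D f ↔ Kil (T := fun i => K ⊗[k] T i) s (bcD K D) F := by
  have key : ∀ v : ∀ j, T (s j), ∑ j, F (update (fun j => (1 : K) ⊗ₜ[k] v j) j
      (bcD K D (s j) ((1 : K) ⊗ₜ[k] v j))) =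
      algebraMap k K (∑ j, f (update v j (D (s j) (v j)))) := by
    intro v
    rw [map_sum]
    refine Finset.sum_congr rfl fun j _ => ?_
    rw [bcD, LinearMap.baseChange_tmul, upd_tmul, hF]
  constructor
  · intro h
    have h1 : (∑ j, F.compLinearMap (fun i => if i = j then bcD K D (s i) else LinearMap.id)) =
        0 := by
      refine bc_ext fun v => ?_
      rw [MultilinearMap.sum_apply]
      have h2 : ∀ j, F.compLinearMap (fun i => if i = j then bcD K D (s i) else LinearMap.id)
          (fun j => (1 : K) ⊗ₜ[k] v j) = F (update (fun j => (1 : K) ⊗ₜ[k] v j) j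
            (bcD K D (s j) ((1 : K) ⊗ₜ[k] v j))) := fun j =>
        upd_comp (T := fun i => K ⊗[k] T i) F (bcD K D) j _
      rw [Finset.sum_congr rfl fun j _ => h2 j, key, h v, map_zero]
      rfl
    intro v
    have h2 := congrArg (fun G : MultilinearMap K (fun j => K ⊗[k] T (s j)) K => G v) h1
    simp only [MultilinearMap.sum_apply, MultilinearMap.zero_apply] at h2
    rw [← h2]
    exact Finset.sum_congr rfl fun j _ =>
      (upd_comp (T := fun i => K ⊗[k] T i) F (bcD K D) j v).symm
  · intro h v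
    have h1 := key v
    rw [h fun j => (1 : K) ⊗ₜ[k] v j] at h1
    exact (map_eq_zero _).1 h1.symm

/-- the component of an operator along a functional on the larger field -/
noncomputable def dsc (lam : K →ₗ[k] k) {V : Type} [AddCommGroup V] [Module k V]
    (D : (K ⊗[k] V) →ₗ[K] (K ⊗[k] V)) : V →ₗ[k] V :=
  (TensorProduct.lid k V).toLinearMap ∘ₗ (lam.rTensor V) ∘ₗ (D.restrictScalars k) ∘ₗ
    (TensorProduct.mk k K V 1)

theorem dsc_apply (lam : K →ₗ[k] k) {V : Type} [AddCommGroup V] [Module k V]
    (D : (K ⊗[k] V) →ₗ[K] (K ⊗[k] V)) (x : V) :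
    dsc lam D x = TensorProduct.lid k V (lam.rTensor V (D ((1 : K) ⊗ₜ[k] x))) := rfl

theorem dsc_bc (lam : K →ₗ[k] k) (h1 : lam 1 = 1) {V : Type} [AddCommGroup V] [Module k V]
    (D : V →ₗ[k] V) : dsc lam (D.baseChange K) = D := by
  apply LinearMap.ext
  intro x
  rw [dsc_apply, LinearMap.baseChange_tmul, LinearMap.rTensor_tmul, TensorProduct.lid_tmul, h1,
    one_smul]

theorem lam_upd (lam : K →ₗ[k] k) {f : MultilinearMap k (fun j => T (s j)) k}
    {F : MultilinearMap K (fun j => K ⊗[k] T (s j)) K}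
    (hF : ∀ v : ∀ j, T (s j), F (fun j => (1 : K) ⊗ₜ[k] v j) = algebraMap k K (f v))
    (v : ∀ j, T (s j)) (j : S) (z : K ⊗[k] T (s j)) :
    lam (F (update (fun j => (1 : K) ⊗ₜ[k] v j) j z)) =
      f (update v j (TensorProduct.lid k (T (s j)) (lam.rTensor (T (s j)) z))) := by
  induction z using TensorProduct.induction_on with
  | zero => rw [map_zero, map_zero, F.map_update_zero, f.map_update_zero, map_zero]
  | tmul c w =>
    have h1 : c ⊗ₜ[k] w = c • ((1 : K) ⊗ₜ[k] w) := by rw [TensorProduct.smul_tmul', smul_eq_mul,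
      mul_one]
    rw [LinearMap.rTensor_tmul, TensorProduct.lid_tmul, h1, F.map_update_smul, f.map_update_smul,
      upd_tmul, hF, smul_eq_mul, mul_comm, ← Algebra.smul_def, map_smul, smul_eq_mul, smul_eq_mul,
      mul_comm]
  | add x y hx hy => rw [map_add, map_add, F.map_update_add, f.map_update_add, map_add, hx, hy]

/-- **Descent.** -/
theorem kil_dsc (lam : K →ₗ[k] k) {D : ∀ i, (K ⊗[k] T i) →ₗ[K] (K ⊗[k] T i)}
    {f : MultilinearMap k (fun j => T (s j)) k}
    {F : MultilinearMap K (fun j => K ⊗[k] T (s j)) K}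
    (hF : ∀ v : ∀ j, T (s j), F (fun j => (1 : K) ⊗ₜ[k] v j) = algebraMap k K (f v))
    (h : Kil (T := fun i => K ⊗[k] T i) s D F) : Kil s (fun i => dsc lam (D i)) f := by
  intro v
  have h1 := congrArg lam (h fun j => (1 : K) ⊗ₜ[k] v j)
  rw [map_sum, map_zero] at h1
  rw [← h1]
  exact Finset.sum_congr rfl fun j _ => (lam_upd lam hF v j _).symm

end Pool.Agent.X292.TG
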