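import Pool.Agent.X292.TG.Pub

/-!
# Bundled form of the statement
-/

set_option linter.unusedSectionVars false

namespace Pool.Agent.X292.TG

open TensorProduct Module Function

section one

variable {k : Type} [Field k] {P : Type} [Group P] {V : Type} [AddCommGroup V] [Module k V]

/-- The operator preserves the form. -/
def Preserves (B : V →ₗ[k] V →ₗ[k] k) (A : V →ₗ[k] V) : Prop := ∀ x y, B (A x) (A y) = B x y

/-- The operator is skew. -/
def IsSkew (B : V →ₗ[k] V →ₗ[k] k) (A : V →ₗ[k] V) : Prop := ∀ x y, B (A x) y + B x (A y) = 0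

/-- Some element `g` is unipotent with `(g - 1) ^ 3 = 0`, `(g - 1) ^ 2 ≠ 0` and `g - 1` of rank
two. -/
def HasUnipotent (r : P →* (V →ₗ[k] V)) : Prop :=
  ∃ g : P, (r g - 1 : Module.End k V) ^ 3 = 0 ∧ (r g - 1 : Module.End k V) ^ 2 ≠ 0 ∧
    finrank k (LinearMap.range (r g - 1)) = 2

/-- Some element `g` has `g - 1` of rank one, and some element has infinite order. -/
def HasReflection (r : P →* (V →ₗ[k] V)) : Prop :=
  (∃ g : P, finrank k (LinearMap.range (r g - 1)) = 1) ∧ ∃ g : P, ∀ n : ℕ, 0 < n → (r g) ^ n ≠ 1

/-- The form is symmetric and nondegenerate and preserved by `P`, the dimension is `3` or `≥ 5`, and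
there is an element as in `HasUnipotent` or as in `HasReflection`. -/
structure GoodMonodromy (B : V →ₗ[k] V →ₗ[k] k) (r : P →* (V →ₗ[k] V)) : Prop where
  symm : ∀ x y, B x y = B y x
  nondeg : ∀ x, (∀ y, B x y = 0) → x = 0
  preserved : ∀ g, Preserves B (r g)
  dim : finrank k V = 3 ∨ 5 ≤ finrank k V
  element : HasUnipotent r ∨ HasReflection r

/-- No nonzero proper subspace is stable under a subgroup of finite index. -/
def StronglyIrr (r : P →* (V →ₗ[k] V)) : Prop :=
  ∀ Δ : Subgroup P, Δ.FiniteIndex → ∀ U : Submodule k V, (∀ g ∈ Δ, ∀ x ∈ U, r g x ∈ U) →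
    U = ⊥ ∨ U = ⊤

/-- No nonzero map commutes with the group up to signs. -/
def NoMapUpToSign {W : Type} [AddCommGroup W] [Module k W] (r : P →* (V →ₗ[k] V))
    (r' : P →* (W →ₗ[k] W)) : Prop :=
  ∀ (ψ : V →ₗ[k] W) (ε : P → k), (∀ g, ε g = 1 ∨ ε g = -1) →
    (∀ g x, ψ (r g x) = ε g • r' g (ψ x)) → ψ = 0

/-- the action over a larger field -/
noncomputable def actOver (r : P →* (V →ₗ[k] V)) (F : Type) [Field F] [Algebra k F] :
    P →* ((F ⊗[k] V) →ₗ[F] (F ⊗[k] V)) :=
  ((Module.End.baseChangeHom k F V : Module.End k V →ₐ[k] Module.End F (F ⊗[k] V)) :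
    Module.End k V →* Module.End F (F ⊗[k] V)).comp r

end one

section family

variable {k : Type} [Field k] {P : Type} [Group P] {S : Type} {W : S → Type}
  [∀ j, AddCommGroup (W j)] [∀ j, Module k (W j)] {M : Type} [AddCommGroup M] [Module k M]

/-- The multilinear map is fixed by a subgroup of finite index of `P`. -/
def FixedBy (r : ∀ j, P →* (W j →ₗ[k] W j)) (f : MultilinearMap k W M) : Prop :=
  ∃ Δ : Subgroup P, Δ.FiniteIndex ∧ ∀ g ∈ Δ, f.compLinearMap (fun j => r j g) = f

/-- The family of operators kills the multilinear map. -/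
def Kills [Fintype S] [DecidableEq S] (D : ∀ j, W j →ₗ[k] W j) (f : MultilinearMap k W M) : Prop :=
  ∀ v : ∀ j, W j, ∑ j, f (update v j (D j (v j))) = 0

end family

/-- A representation of the group `P` on a vector space with a bilinear form. -/
structure FormRep (k : Type) [Field k] (P : Type) [Group P] where
  /-- the space -/
  V : Type
  [acg : AddCommGroup V]
  [mod : Module k V]
  /-- the form -/
  B : V →ₗ[k] V →ₗ[k] k
  /-- the action -/
  ρ : P →* (V →ₗ[k] V)

attribute [instance] FormRep.acg FormRep.mod

variable {k : Type} [Field k] {P : Type} [Group P]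

/-- extension of the scalars -/
noncomputable def FormRep.over (N : FormRep k P) (F : Type) [Field F] [Algebra k F] :
    FormRep F P where
  V := F ⊗[k] N.V
  B := LinearMap.BilinForm.baseChange F N.B
  ρ := actOver N.ρ F

variable {ι : Type} (N : ι → FormRep k P)

/-- Every family of skew operators kills every multilinear map which is fixed by a subgroup of
finite index of `P`. -/
def BigOrthogonal : Prop :=
  ∀ (M : Type) [AddCommGroup M] [Module k M] (S : Type) [Fintype S] [DecidableEq S] (s : S → ι)
    (f : MultilinearMap k (fun j => (N (s j)).V) M), FixedBy (fun j => (N (s j)).ρ) f →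
      ∀ D : ∀ i, (N i).V →ₗ[k] (N i).V, (∀ i, IsSkew (N i).B (D i)) →
        Kills (fun j => D (s j)) f

/-- The group `G` respects the multilinear forms which are fixed by a subgroup of finite index of
`P`. -/
def Normalizes {G : Type} [Group G] (σ : ∀ i, G →* ((N i).V →ₗ[k] (N i).V)) : Prop :=
  ∀ (g : G) (S : Type) [Fintype S] (s : S → ι) (f : MultilinearMap k (fun j => (N (s j)).V) k),
    FixedBy (fun j => (N (s j)).ρ) f →
      FixedBy (fun j => (N (s j)).ρ) (f.compLinearMap fun j => σ (s j) g)

/-- Actions of a group `G` on the spaces of a family `N` of representations of `P`: by isometries,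
respecting the multilinear forms which are fixed by a subgroup of finite index of `P`, strongly
irreducible on every space, and without nonzero maps between different spaces which commute with `G`
up to signs. -/
structure BigGroup {G : Type} [Group G] (σ : ∀ i, G →* ((N i).V →ₗ[k] (N i).V)) : Prop where
  preserved : ∀ i g, Preserves (N i).B (σ i g)
  normal : Normalizes N σ
  irreducible : ∀ i, StronglyIrr (σ i)
  distinct : ∀ i j, i ≠ j → NoMapUpToSign (σ j) (σ i)

theorem fixedBy_iff {S : Type} {s : S → ι} {M : Type} [AddCommGroup M] [Module k M]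
    {f : MultilinearMap k (fun j => (N (s j)).V) M} : FixedBy (fun j => (N (s j)).ρ) f ↔
      Fixd (T := fun i => (N i).V) (fun i => (N i).ρ) s f := by
  constructor
  · rintro ⟨Δ, hΔ, h⟩
    exact ⟨Δ, hΔ, fun g hg v => congrArg (fun F => F v) (h g hg)⟩
  · rintro ⟨Δ, hΔ, h⟩
    exact ⟨Δ, hΔ, fun g hg => MultilinearMap.ext fun v => h g hg v⟩

/-- **The theorem.** -/
theorem bundled [CharZero k] [Finite ι] (hfin : ∀ i, FiniteDimensional k (N i).V)
    (hN : ∀ i, GoodMonodromy (N i).B (N i).ρ)
    (h8 : ∀ i j, i ≠ j → finrank k (N i).V = 8 → finrank k (N j).V ≠ 8) {F : Type} [Field F]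
    [Algebra k F] {G : Type} [Group G] (σ : ∀ i, G →* (((N i).over F).V →ₗ[F] ((N i).over F).V))
    (hσ : BigGroup (fun i => (N i).over F) σ) (K : Type) [Field K] [Algebra k K] :
    BigOrthogonal fun i => (N i).over K := by
  have : CharZero F := charZero_of_injective_algebraMap (algebraMap k F).injective
  have : CharZero K := charZero_of_injective_algebraMap (algebraMap k K).injective
  have := Fintype.ofFinite ι
  intro M _ _ S _ _ s f hf D hD
  refine main (V := fun i => (N i).V) (ρ := fun i => (N i).ρ) (B := fun i => (N i).B)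
    (fun i => (hN i).symm) (fun i => (hN i).nondeg) (fun i => (hN i).preserved)
    (fun i => (hN i).dim) h8 (fun i => (hN i).element) (F := F) (σ := σ) hσ.preserved
    hσ.irreducible ?_ hσ.distinct (K := K) ?_ hD
  · intro γ S _ _ s f hf
    exact (fixedBy_iff fun i => (N i).over F).1
      (hσ.normal γ S s f ((fixedBy_iff fun i => (N i).over F).2 hf))
  · exact (fixedBy_iff fun i => (N i).over K).1 hf

end Pool.Agent.X292.TG
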