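import Pool.Agent.X292.TG.Lvl

/-!
# Several constituents
-/

set_option linter.unusedSectionVars false

namespace Pool.Agent.X292.TG

open TensorProduct Module Function Finset Pool.Agent.TH125.Gal Pool.Agent.Y127.G
  Pool.Agent.Y127.C Pool.Agent.TH118.SG

section spn

variable {k : Type} [Field k] [CharZero k] {P G : Type} [Group P] [Group G] {ι : Type}
  {T : ι → Type} [∀ i, AddCommGroup (T i)] [∀ i, Module k (T i)] [∀ i, FiniteDimensional k (T i)]
  {L : Type} [Field L] [CharZero L] [Algebra k L]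

/-- the span of the base changes -/
def spn (L : Type) [Field L] [Algebra k L] (𝔪 : Submodule k (∀ i, T i →ₗ[k] T i)) :
    Submodule L (∀ i, (L ⊗[k] T i) →ₗ[L] (L ⊗[k] T i)) :=
  Submodule.span L {E | ∃ D ∈ 𝔪, E = bcD L D}

variable {𝔪 : Submodule k (∀ i, T i →ₗ[k] T i)}

theorem bcD_mem {D : ∀ i, T i →ₗ[k] T i} (hD : D ∈ 𝔪) : bcD L D ∈ spn L 𝔪 :=
  Submodule.subset_span ⟨D, hD, rfl⟩

theorem spn_bk (hbk : ∀ D ∈ 𝔪, ∀ D' ∈ 𝔪, bk D D' ∈ 𝔪) :
    ∀ E ∈ spn L 𝔪, ∀ E' ∈ spn L 𝔪, bk E E' ∈ spn L 𝔪 := by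
  intro E hE E' hE'
  have hadd : ∀ E₁ E₂ E₃ : ∀ i, (L ⊗[k] T i) →ₗ[L] (L ⊗[k] T i),
      bk (E₁ + E₂) E₃ = bk E₁ E₃ + bk E₂ E₃ := by
    intro E₁ E₂ E₃
    funext i
    rw [bk_eq, Pi.add_apply, Pi.add_apply, bk_eq, bk_eq, br, br, br, add_mul, mul_add]
    abel
  have hadd' : ∀ E₁ E₂ E₃ : ∀ i, (L ⊗[k] T i) →ₗ[L] (L ⊗[k] T i),
      bk E₃ (E₁ + E₂) = bk E₃ E₁ + bk E₃ E₂ := by
    intro E₁ E₂ E₃
    funext i
    rw [bk_eq, Pi.add_apply, Pi.add_apply, bk_eq, bk_eq, br, br, br, add_mul, mul_add]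
    abel
  have hsm : ∀ (c : L) (E₁ E₂ : ∀ i, (L ⊗[k] T i) →ₗ[L] (L ⊗[k] T i)),
      bk (c • E₁) E₂ = c • bk E₁ E₂ := by
    intro c E₁ E₂
    funext i
    rw [bk_eq, Pi.smul_apply, Pi.smul_apply, bk_eq, br, br, smul_mul_assoc, mul_smul_comm]
    exact (smul_sub c (E₁ i * E₂ i : Module.End L (L ⊗[k] T i)) (E₂ i * E₁ i)).symm
  have hsm' : ∀ (c : L) (E₁ E₂ : ∀ i, (L ⊗[k] T i) →ₗ[L] (L ⊗[k] T i)),
      bk E₁ (c • E₂) = c • bk E₁ E₂ := by
    intro c E₁ E₂
    funext i
    rw [bk_eq, Pi.smul_apply, Pi.smul_apply, bk_eq, br, br, smul_mul_assoc, mul_smul_comm]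
    exact (smul_sub c (E₁ i * E₂ i : Module.End L (L ⊗[k] T i)) (E₂ i * E₁ i)).symm
  have hz : ∀ E₁ : ∀ i, (L ⊗[k] T i) →ₗ[L] (L ⊗[k] T i), bk 0 E₁ = 0 := by
    intro E₁
    funext i
    rw [bk_eq, Pi.zero_apply, br_zero_left]
  have hz' : ∀ E₁ : ∀ i, (L ⊗[k] T i) →ₗ[L] (L ⊗[k] T i), bk E₁ 0 = 0 := by
    intro E₁
    funext i
    rw [bk_eq, Pi.zero_apply, br_zero_right]
  unfold spn at hE hE' ⊢
  induction hE using Submodule.span_induction with
  | mem x hx =>
    obtain ⟨D, hD, rfl⟩ := hx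
    induction hE' using Submodule.span_induction with
    | mem y hy =>
      obtain ⟨D', hD', rfl⟩ := hy
      refine Submodule.subset_span ⟨_, hbk D hD D' hD', ?_⟩
      funext i
      exact (bc_br _ _).symm
    | zero => rw [hz']; exact Submodule.zero_mem _
    | add x y _ _ hx hy => rw [hadd']; exact Submodule.add_mem _ hx hy
    | smul c x _ hx => rw [hsm']; exact Submodule.smul_mem _ _ hx
  | zero => rw [hz]; exact Submodule.zero_mem _
  | add x y _ _ hx hy => rw [hadd]; exact Submodule.add_mem _ hx hy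
  | smul c x _ hx => rw [hsm]; exact Submodule.smul_mem _ _ hx

theorem spn_skew {i : ι} {B : T i →ₗ[k] T i →ₗ[k] k} (hsk : ∀ D ∈ 𝔪, Skew B (D i)) :
    ∀ E ∈ spn L 𝔪, Skew (bcB L B) (E i) := by
  intro E hE
  have h1 : E i ∈ SkewS (bcB L B) := by
    unfold spn at hE
    induction hE using Submodule.span_induction with
    | mem x hx =>
      obtain ⟨D, hD, rfl⟩ := hx
      exact bcB_skew (hsk D hD)
    | zero => exact Submodule.zero_mem _
    | add x y _ _ hx hy => exact Submodule.add_mem _ hx hy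
    | smul c x _ hx => exact Submodule.smul_mem _ _ hx
  exact h1

theorem bc_mul {V : Type} [AddCommGroup V] [Module k V] (A A' : Module.End k V) :
    (A * A' : Module.End k V).baseChange L =
      (A.baseChange L * A'.baseChange L : Module.End L (L ⊗[k] V)) :=
  LinearMap.baseChange_comp (A := L) A' A

theorem spn_conj {a b : ∀ i, T i →ₗ[k] T i}
    (hc : ∀ D ∈ 𝔪, (fun i => (a i * D i * b i : Module.End k (T i))) ∈ 𝔪) :
    ∀ E ∈ spn L 𝔪, (fun i => ((a i).baseChange L * E i * (b i).baseChange L :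
      Module.End L (L ⊗[k] T i))) ∈ spn L 𝔪 := by
  intro E hE
  unfold spn at hE ⊢
  induction hE using Submodule.span_induction with
  | mem x hx =>
    obtain ⟨D, hD, rfl⟩ := hx
    refine Submodule.subset_span ⟨_, hc D hD, ?_⟩
    funext i
    change _ = (a i * D i * b i : Module.End k (T i)).baseChange L
    rw [bc_mul, bc_mul]
    rfl
  | zero =>
    convert Submodule.zero_mem _ using 1
    funext i
    rw [Pi.zero_apply, mul_zero, zero_mul]
  | add x y _ _ hx hy =>
    convert Submodule.add_mem _ hx hy using 1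
    funext i
    rw [Pi.add_apply, Pi.add_apply, mul_add, add_mul]
  | smul c x _ hx =>
    convert Submodule.smul_mem _ c hx using 1
    funext i
    rw [Pi.smul_apply, Pi.smul_apply, mul_smul_comm, smul_mul_assoc]

theorem spn_all {i : ι} {B : T i →ₗ[k] T i →ₗ[k] k} (h : ∀ x y, oo B 1 x y ∈ rs 𝔪 i)
    (z z' : L ⊗[k] T i) : ∃ E ∈ spn L 𝔪, E i = oo (bcB L B) 1 z z' := by
  have h1 : oo (bcB L B) 1 z z' ∈ rs (spn L 𝔪) i := oo_mem_bc (fun x y => by
    obtain ⟨D, hD, hDi⟩ := h x y
    refine ⟨_, bcD_mem hD, ?_⟩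
    change (D i).baseChange L = _
    rw [← hDi]
    rfl) z z'
  exact h1

theorem spn_kil {S : Type} [Fintype S] [DecidableEq S] {s : S → ι}
    {M : Type} [AddCommGroup M] [Module L M]
    {F : MultilinearMap L (fun j => L ⊗[k] T (s j)) M}
    (h : ∀ D ∈ 𝔪, Kil (T := fun i => L ⊗[k] T i) s (bcD L D) F) :
    ∀ E ∈ spn L 𝔪, Kil (T := fun i => L ⊗[k] T i) s E F := by
  intro E hE
  unfold spn at hE
  induction hE using Submodule.span_induction with
  | mem x hx =>
    obtain ⟨D, hD, rfl⟩ := hx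
    exact h D hD
  | zero =>
    intro v
    exact Finset.sum_eq_zero fun j _ => F.map_coord_zero j (update_self _ _ _)
  | add x y _ _ hx hy =>
    intro v
    have h1 := hx v
    have h2 := hy v
    change ∑ j, F (update v j ((x (s j) + y (s j)) (v j))) = 0
    simp only [LinearMap.add_apply, MultilinearMap.map_update_add, Finset.sum_add_distrib]
    rw [h1, h2, add_zero]
  | smul c x _ hx =>
    intro v
    have h1 := hx v
    change ∑ j, F (update v j ((c • x (s j)) (v j))) = 0
    simp only [LinearMap.smul_apply, MultilinearMap.map_update_smul]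
    rw [← Finset.smul_sum, h1, smul_zero]

/-- the component of a map along a functional on the larger field -/
noncomputable def dsc2 (lam : L →ₗ[k] k) {V W : Type} [AddCommGroup V] [Module k V]
    [AddCommGroup W] [Module k W] (ψ : (L ⊗[k] V) →ₗ[L] (L ⊗[k] W)) : V →ₗ[k] W :=
  (TensorProduct.lid k W).toLinearMap ∘ₗ (lam.rTensor W) ∘ₗ (ψ.restrictScalars k) ∘ₗ
    (TensorProduct.mk k L V 1)

theorem dsc2_apply (lam : L →ₗ[k] k) {V W : Type} [AddCommGroup V] [Module k V]
    [AddCommGroup W] [Module k W] (ψ : (L ⊗[k] V) →ₗ[L] (L ⊗[k] W)) (x : V) :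
    dsc2 lam ψ x = TensorProduct.lid k W (lam.rTensor W (ψ ((1 : L) ⊗ₜ[k] x))) := rfl

theorem lam_bc (lam : L →ₗ[k] k) {W : Type} [AddCommGroup W] [Module k W] (A : W →ₗ[k] W)
    (z : L ⊗[k] W) : TensorProduct.lid k W (lam.rTensor W (A.baseChange L z)) =
      A (TensorProduct.lid k W (lam.rTensor W z)) := by
  induction z using TensorProduct.induction_on with
  | zero => simp
  | tmul c w =>
    rw [LinearMap.baseChange_tmul, LinearMap.rTensor_tmul, LinearMap.rTensor_tmul,
      TensorProduct.lid_tmul, TensorProduct.lid_tmul, map_smul]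
  | add x y hx hy => simp only [map_add, hx, hy]

end spn

section form

variable {K : Type} [Field K] [CharZero K] {T : Type} [AddCommGroup T] [Module K T]
  [FiniteDimensional K T]

/-- **Invariant symmetric forms are multiples of the given form.** -/
theorem inv_form {B B' : T →ₗ[K] T →ₗ[K] K} (hsy : ∀ x y, B x y = B y x)
    (hsy' : ∀ x y, B' x y = B' y x) {p q : T} (hpp : B p p = 0) (hqq : B q q = 0)
    (hqp : B q p = 1) (hinv : ∀ u v, Skew B' (oo B 1 u v)) (x y : T) :
    B' x y = B' p q * B x y := by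
  have hpq : B p q = 1 := by rw [hsy, hqp]
  have key : ∀ u v x y, B v x * B' u y - B u x * B' v y + (B v y * B' x u - B u y * B' x v) = 0 := by
    intro u v x y
    have h1 := hinv u v x y
    rw [oo_one_apply, oo_one_apply] at h1
    simpa only [map_sub, map_smul, LinearMap.sub_apply, LinearMap.smul_apply, smul_eq_mul] using h1
  have h1 : B' p p = 0 := by
    have h2 := key p q p p
    rw [hqp, hpp] at h2
    have h3 : (2 : K) * B' p p = 0 := by linear_combination h2
    exact (mul_eq_zero.1 h3).resolve_left two_ne_zero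
  have h2 : B' q q = 0 := by
    have h2 := key q p q q
    rw [hpq, hqq] at h2
    have h3 : (2 : K) * B' q q = 0 := by linear_combination h2
    exact (mul_eq_zero.1 h3).resolve_left two_ne_zero
  have h3 : ∀ y, B' p y = B' p q * B p y := by
    intro y
    have h4 := key p q p y
    rw [hqp, hpp, h1] at h4
    linear_combination h4
  have h4 : ∀ y, B' q y = B' p q * B q y := by
    intro y
    have h4 := key q p q y
    rw [hpq, hqq, h2, hsy' q p] at h4
    linear_combination h4
  have h5 := key x q p y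
  rw [hqp, h3 x, h4 y, hsy x p] at h5
  linear_combination h5

/-- there are no large totally isotropic images -/
theorem exists_ne_form (hn : 3 ≤ finrank K T) {B : T →ₗ[K] T →ₗ[K] K}
    (hsy : ∀ x y, B x y = B y x) (hnd : ∀ x, (∀ y, B x y = 0) → x = 0) {W : Submodule K T}
    (hW : ∀ u v, ∀ w ∈ W, oo B 1 u v w ∈ W) {w : T} (hw : w ∈ W) (hw0 : w ≠ 0) :
    ∃ v ∈ W, B v v ≠ 0 := by
  by_contra hcon
  push Not at hcon
  obtain ⟨z₀, hz₀⟩ : ∃ z, B w z ≠ 0 := by
    by_contra hcon
    push Not at hcon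
    exact hw0 (hnd _ hcon)
  set z := (B w z₀)⁻¹ • z₀ with hz
  have hwz : B w z = 1 := by rw [hz, map_smul, smul_eq_mul, inv_mul_cancel₀ hz₀]
  have hzw : B z w = 1 := by rw [hsy, hwz]
  clear_value z
  have h1 : ∀ v, B v w = 0 → v ∈ W := by
    intro v hv
    have h2 := hW z v w hw
    rw [oo_one_apply, hv, zero_smul, zero_sub, hzw, one_smul] at h2
    exact (Submodule.neg_mem_iff _).1 h2
  have h2 : ∀ v v', B v w = 0 → B v' w = 0 → B v v' = 0 := by
    intro v v' hv hv'
    have a1 := hcon _ (h1 v hv)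
    have a2 := hcon _ (h1 v' hv')
    have a3 := hcon (v + v') (h1 _ (by rw [map_add, LinearMap.add_apply, hv, hv', add_zero]))
    rw [map_add, map_add, LinearMap.add_apply, LinearMap.add_apply, a1, a2, hsy v' v] at a3
    have a4 : (2 : K) * B v v' = 0 := by linear_combination a3
    exact (mul_eq_zero.1 a4).resolve_left two_ne_zero
  have hww : B w w = 0 := hcon w hw
  have h3 : ∀ v, B v w = 0 → v = B v z • w := by
    intro v hv
    rw [← sub_eq_zero]
    refine hnd _ fun t => ?_
    have h4 : B (t - B t w • z) w = 0 := by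
      rw [map_sub, map_smul, LinearMap.sub_apply, LinearMap.smul_apply, smul_eq_mul, hzw, mul_one,
        sub_self]
    have h5 := h2 v _ hv h4
    rw [map_sub, map_smul, smul_eq_mul] at h5
    rw [map_sub, map_smul, LinearMap.sub_apply, LinearMap.smul_apply, smul_eq_mul, hsy w t]
    linear_combination h5
  have h6 : (⊤ : Submodule K T) ≤ Submodule.span K {w, z} := by
    intro t _
    rw [Submodule.mem_span_pair]
    have h4 : B (t - B t w • z) w = 0 := by
      rw [map_sub, map_smul, LinearMap.sub_apply, LinearMap.smul_apply, smul_eq_mul, hzw, mul_one,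
        sub_self]
    refine ⟨B (t - B t w • z) z, B t w, ?_⟩
    rw [← h3 _ h4, sub_add_cancel]
  have h7 := Submodule.finrank_mono h6
  rw [finrank_top] at h7
  have h8 : finrank K (Submodule.span K {w, z}) ≤ 2 := by
    classical
    have h9 := finrank_span_finset_le_card (R := K) ({w, z} : Finset T)
    rw [Finset.coe_insert, Finset.coe_singleton] at h9
    exact le_trans h9 Finset.card_le_two
  omega

end form

end Pool.Agent.X292.TG
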