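import Pool.Agent.X292.TG.Ex

/-!
# Descent to a field which need not be algebraically closed
-/

set_option linter.unusedSectionVars false

namespace Pool.Agent.X292.TG

open TensorProduct Module Function Finset Pool.Agent.TH125.Gal Pool.Agent.Y127.G
  Pool.Agent.Y127.C Pool.Agent.TH118.SG

variable {k : Type} [Field k] {P : Type} [Group P] {ι : Type} {T : ι → Type}
  [∀ i, AddCommGroup (T i)] [∀ i, Module k (T i)]

/-- base change of an action -/
noncomputable def bcR (K : Type) [Field K] [Algebra k K] (ρ : ∀ i, P →* (T i →ₗ[k] T i)) :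
    ∀ i, P →* ((K ⊗[k] T i) →ₗ[K] (K ⊗[k] T i)) := fun i =>
  { toFun := fun g => (ρ i g).baseChange K
    map_one' := by
      rw [map_one]
      exact LinearMap.baseChange_id
    map_mul' := fun g h => by
      rw [map_mul]
      exact LinearMap.baseChange_comp (A := K) (ρ i h) (ρ i g) }

theorem bcR_apply (K : Type) [Field K] [Algebra k K] (ρ : ∀ i, P →* (T i →ₗ[k] T i)) (i : ι)
    (g : P) : bcR K ρ i g = (ρ i g).baseChange K := rfl

variable [CharZero k] [∀ i, FiniteDimensional k (T i)] {K : Type} [Field K] [CharZero K]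
  [Algebra k K] {ρ : ∀ i, P →* (T i →ₗ[k] T i)}

theorem fixd_bc {S : Type} [Fintype S] [DecidableEq S] {s : S → ι}
    {f : MultilinearMap k (fun j => T (s j)) k} {F : MultilinearMap K (fun j => K ⊗[k] T (s j)) K}
    (hF : ∀ v : ∀ j, T (s j), F (fun j => (1 : K) ⊗ₜ[k] v j) = algebraMap k K (f v))
    (h : Fixd ρ s f) : Fixd (T := fun i => K ⊗[k] T i) (bcR K ρ) s F := by
  obtain ⟨Δ, hΔ, h1⟩ := h
  refine ⟨Δ, hΔ, fun g hg v => ?_⟩
  have h2 : F.compLinearMap (fun j => bcR K ρ (s j) g) = F := by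
    refine bc_ext fun v => ?_
    rw [MultilinearMap.compLinearMap_apply, hF]
    simp only [bcR_apply, LinearMap.baseChange_tmul]
    rw [hF, h1 g hg]
  exact congrArg (fun G : MultilinearMap K (fun j => K ⊗[k] T (s j)) K => G v) h2

/-- **Descent of the Lie algebra.** -/
theorem LL_dsc (lam : K →ₗ[k] k) {D : ∀ i, (K ⊗[k] T i) →ₗ[K] (K ⊗[k] T i)}
    (hD : D ∈ LL (T := fun i => K ⊗[k] T i) (bcR K ρ)) : (fun i => dsc lam (D i)) ∈ LL ρ := by
  intro S _ _ s f hf
  obtain ⟨F, hF⟩ := exists_bc (K := K) f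
  exact kil_dsc lam hF (hD S s F (fixd_bc hF hf))

theorem exists_lam (k K : Type) [Field k] [Field K] [Algebra k K] :
    ∃ lam : K →ₗ[k] k, lam 1 = 1 := by
  obtain ⟨lam, h⟩ := (Algebra.linearMap k K).exists_leftInverse_of_injective (by
    rw [LinearMap.ker_eq_bot]
    exact (algebraMap k K).injective)
  refine ⟨lam, ?_⟩
  have h1 := LinearMap.congr_fun h 1
  simpa using h1

theorem lam_zero {V : Type} [AddCommGroup V] [Module k V] [FiniteDimensional k V]
    {z : K ⊗[k] V} (h : ∀ lam : K →ₗ[k] k, TensorProduct.lid k V (lam.rTensor V z) = 0) :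
    z = 0 := by
  let b := Module.finBasis k V
  have h1 : z = ∑ c, (b.baseChange K).repr z c • ((1 : K) ⊗ₜ[k] b c) := by
    conv_lhs => rw [← (b.baseChange K).sum_repr z]
    exact Finset.sum_congr rfl fun c _ => by rw [Basis.baseChange_apply]
  have h2 : ∀ c, (b.baseChange K).repr z c = 0 := by
    intro c
    rw [← Module.forall_dual_apply_eq_zero_iff k]
    intro lam
    have h3 := h lam
    rw [h1, map_sum, map_sum] at h3
    have h4 : ∀ c', TensorProduct.lid k V (lam.rTensor V ((b.baseChange K).repr z c' •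
        ((1 : K) ⊗ₜ[k] b c'))) = lam ((b.baseChange K).repr z c') • b c' := by
      intro c'
      rw [TensorProduct.smul_tmul', smul_eq_mul, mul_one, LinearMap.rTensor_tmul,
        TensorProduct.lid_tmul]
    rw [Finset.sum_congr rfl fun c' _ => h4 c'] at h3
    exact (Fintype.linearIndependent_iff.1 b.linearIndependent _ h3) c
  rw [h1]
  exact Finset.sum_eq_zero fun c _ => by rw [h2, zero_smul]

theorem bc_sub {V : Type} [AddCommGroup V] [Module k V] (A A' : V →ₗ[k] V) :
    (A - A').baseChange K = A.baseChange K - A'.baseChange K := LinearMap.baseChange_sub A A'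

theorem bc_pow {V : Type} [AddCommGroup V] [Module k V] (A : Module.End k V) (n : ℕ) :
    (A ^ n : Module.End k V).baseChange K = ((A.baseChange K : Module.End K (K ⊗[k] V)) ^ n) :=
  LinearMap.baseChange_pow _ _ _ A n

theorem bc_one {V : Type} [AddCommGroup V] [Module k V] :
    (1 : Module.End k V).baseChange K = (1 : Module.End K (K ⊗[k] V)) := LinearMap.baseChange_id

variable (ρ) in
/-- **The logarithm.** -/
theorem exists_log (g : P) : ∃ D ∈ LL ρ, ∀ i, (ρ i g - 1) ^ 3 = 0 →
    D i = (ρ i g - 1) - (2⁻¹ : k) • (ρ i g - 1) ^ 2 := by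
  let L := AlgebraicClosure k
  have : CharZero L := charZero_of_injective_algebraMap (algebraMap k L).injective
  obtain ⟨lam, hlam⟩ := exists_lam k L
  obtain ⟨J, hJ, h⟩ := exists_LLlog (T := fun i => L ⊗[k] T i) (bcR L ρ) g
  refine ⟨_, LL_dsc lam hJ, fun i hi => ?_⟩
  have h1 : (bcR L ρ i g - 1) ^ 3 = 0 := by
    rw [bcR_apply, ← bc_one, ← bc_sub, ← bc_pow, hi]
    exact LinearMap.baseChange_zero
  have h2 : J i = ((ρ i g - 1) - (2⁻¹ : k) • (ρ i g - 1) ^ 2 : Module.End k (T i)).baseChange L := by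
    rw [h i 3 h1, lg_three, bc_sub, bc_sub, bc_one, LinearMap.baseChange_smul, bc_pow, bc_sub,
      bc_one, bcR_apply]
    congr 1
    rw [← algebraMap_smul L (2⁻¹ : k), map_inv₀, map_ofNat]
  change dsc lam (J i) = _
  rw [h2, dsc_bc lam hlam]

variable (ρ) in
/-- **An element of infinite order.** -/
theorem exists_ne0 (g : P) (i : ι) (hinf : ∀ n : ℕ, 0 < n → (ρ i g) ^ n ≠ 1) :
    ∃ D ∈ LL ρ, D i ≠ 0 := by
  let L := AlgebraicClosure k
  have : CharZero L := charZero_of_injective_algebraMap (algebraMap k L).injective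
  obtain ⟨lam, hlam⟩ := exists_lam k L
  obtain ⟨J, hJ, h⟩ := exists_LLne (T := fun i => L ⊗[k] T i) (bcR L ρ) g i fun n hn h => by
    apply hinf n hn
    rw [bcR_apply, ← bc_pow] at h
    have h1 : dsc lam (((ρ i g) ^ n : Module.End k (T i)).baseChange L) =
        dsc lam (1 : Module.End L (L ⊗[k] T i)) := by rw [h]
    rw [dsc_bc lam hlam, ← bc_one, dsc_bc lam hlam] at h1
    exact h1
  obtain ⟨lam', x, hx⟩ : ∃ (lam' : L →ₗ[k] k) (x : T i), dsc lam' (J i) x ≠ 0 := by
    by_contra hcon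
    push Not at hcon
    apply h
    have h1 : ∀ x : T i, J i ((1 : L) ⊗ₜ[k] x) = 0 := fun x => lam_zero fun lam' => hcon lam' x
    apply LinearMap.ext
    intro z
    rw [LinearMap.zero_apply]
    induction z using TensorProduct.induction_on with
    | zero => exact map_zero _
    | tmul c w =>
      have h2 : c ⊗ₜ[k] w = c • ((1 : L) ⊗ₜ[k] w) := by
        rw [TensorProduct.smul_tmul', smul_eq_mul, mul_one]
      rw [h2, map_smul, h1, smul_zero]
    | add x y hx hy => rw [map_add, hx, hy, add_zero]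
  exact ⟨_, LL_dsc lam' hJ, fun h0 => hx (by rw [h0]; rfl)⟩

end Pool.Agent.X292.TG
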