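import Pool.Agent.X292.TG.Lie
import Pool.Agent.Y127.G.App

/-!
# Logarithms and other operators in the Lie algebra
-/

set_option linter.unusedSectionVars false

namespace Pool.Agent.X292.TG

open TensorProduct Module Function Finset Pool.Agent.TH125.Gal Pool.Agent.Y127.G
  Pool.Agent.Y127.C Pool.Agent.TH118.SG

section lgn

variable {K : Type} [Field K] [CharZero K] {V : Type} [AddCommGroup V] [Module K V]

/-- the logarithm of a unipotent operator `≠ 1` is not zero -/
theorem lg_ne {U : Module.End K V} {n : ℕ} (hU : (U - 1) ^ n = 0) (h1 : U ≠ 1) : lg n U ≠ 0 := by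
  classical
  intro h0
  set A := U - 1 with hA
  have hA0 : A ≠ 0 := fun h => h1 (sub_eq_zero.1 h)
  have hex : ∃ r, A ^ r = 0 := ⟨n, hU⟩
  set r := Nat.find hex with hr
  have hr0 : A ^ r = 0 := Nat.find_spec hex
  have hmin : ∀ m, m < r → A ^ m ≠ 0 := fun m hm => Nat.find_min hex hm
  have hr2 : 2 ≤ r := by
    by_contra hlt
    have h2 : r = 0 ∨ r = 1 := by omega
    rcases h2 with h2 | h2
    · rw [h2, pow_zero] at hr0
      apply hA0
      rw [← mul_one A, hr0, mul_zero]
    · rw [h2, pow_one] at hr0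
      exact hA0 hr0
  have hrn : r ≤ n := Nat.find_min' hex hU
  have h2 : A ^ (r - 2) * lg n U = A ^ (r - 1) := by
    rw [lg, Finset.mul_sum, Finset.sum_eq_single 1]
    · rw [lc_one, one_smul, ← hA, ← pow_add]
      congr 1
      omega
    · intro i hi hi1
      rcases Nat.eq_zero_or_pos i with h | h
      · rw [h, lc_zero, zero_smul, mul_zero]
      · rw [mul_smul_comm, ← hA, ← pow_add, show r - 2 + i = r + (i - 2) by omega, pow_add, hr0,
          zero_mul, smul_zero]
    · intro h
      exact absurd (Finset.mem_range.2 (by omega)) h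
  rw [h0, mul_zero] at h2
  exact hmin (r - 1) (by omega) h2.symm

end lgn

/-- an additive function which does not vanish at an element of infinite order -/
theorem exists_theta {L : Type} [Field L] [CharZero L] (β : Lˣ) (hβ : ∀ n : ℕ, 0 < n → β ^ n ≠ 1) :
    ∃ θ : Additive Lˣ →+ L, θ (Additive.ofMul β) ≠ 0 := by
  let f : ℤ →+ Additive Lˣ :=
    { toFun := fun n => Additive.ofMul (β ^ n)
      map_zero' := by rw [zpow_zero]; rfl
      map_add' := fun m n => by rw [zpow_add]; rfl }
  have hf : Injective f := by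
    rw [injective_iff_map_eq_zero]
    intro n hn
    have h1 : β ^ n = 1 := hn
    by_contra h0
    rcases lt_trichotomy n 0 with h | h | h
    · refine hβ n.natAbs (by omega) ?_
      have h2 : β ^ (-n) = 1 := by rw [zpow_neg, h1, inv_one]
      rw [← zpow_natCast, show ((n.natAbs : ℕ) : ℤ) = -n by omega]
      exact h2
    · exact h0 h
    · refine hβ n.natAbs (by omega) ?_
      rw [← zpow_natCast, show ((n.natAbs : ℕ) : ℤ) = n by omega]
      exact h1
  let g : ℤ →+ ℚ := Int.castAddHom ℚ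
  obtain ⟨h, hh⟩ := (Module.Baer.of_divisible ℚ).extension_property_addMonoidHom f hf g
  refine ⟨(Rat.castHom L).toAddMonoidHom.comp h, ?_⟩
  have h1 : h (f 1) = 1 := by
    have h2 := DFunLike.congr_fun hh (1 : ℤ)
    rw [AddMonoidHom.comp_apply] at h2
    rw [h2]
    exact Int.cast_one
  have h2 : f 1 = Additive.ofMul β := by
    change Additive.ofMul (β ^ (1 : ℤ)) = _
    rw [zpow_one]
  rw [h2] at h1
  change ((h (Additive.ofMul β) : ℚ) : L) ≠ 0
  rw [h1, Rat.cast_one]
  exact one_ne_zero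

section cl

variable {L : Type} [Field L] [CharZero L] [IsAlgClosed L] {P : Type} [Group P] {ι : Type}
  {T : ι → Type} [∀ i, AddCommGroup (T i)] [∀ i, Module L (T i)] [∀ i, FiniteDimensional L (T i)]

theorem line_one {L : Type} [Field L] [CharZero L] [IsAlgClosed L] {P : Type} [Group P] (g : P)
    (x : L) : (line (1 : P →* Lˣ)).ρ g x = x := by
  rw [line_apply, MonoidHom.one_apply, Units.val_one, one_smul]

/-- the family with a line -/
noncomputable def fam (ρ : ∀ i, P →* (T i →ₗ[L] T i)) : Option ι → FRep L P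
  | none => line 1
  | some i => { V := T i, ρ := ρ i }

theorem fam_none (ρ : ∀ i, P →* (T i →ₗ[L] T i)) (g : P) (x : (fam ρ none).V) :
    (fam ρ none).ρ g x = x :=
  line_one (L := L) (P := P) g (x : L)

theorem LL_of_GG (ρ : ∀ i, P →* (T i →ₗ[L] T i))
    {J : ∀ o, (fam ρ o).V →ₗ[L] (fam ρ o).V} (hJ : J ∈ GG (fam ρ)) (h0 : J none = 0) :
    (fun i => (J (some i) : T i →ₗ[L] T i)) ∈ LL ρ := by
  intro S _ _ s f ⟨Δ, hΔ, hf⟩ v
  have h1 := hJ S (fun j => some (s j)) none f ⟨Δ, hΔ, fun g hg v =>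
    (hf g hg v).trans (fam_none ρ g (f v)).symm⟩ v
  rw [h0] at h1
  exact h1

theorem exists_LLlog (ρ : ∀ i, P →* (T i →ₗ[L] T i)) (g : P) : ∃ J ∈ LL ρ, ∀ i, ∀ n : ℕ,
    (ρ i g - 1) ^ n = 0 → J i = lg n (ρ i g) := by
  obtain ⟨J, hJ, h⟩ := exists_GGlog (fam ρ) g
  refine ⟨_, LL_of_GG ρ hJ ?_, fun i n hn => h (some i) n hn⟩
  rw [h none 1]
  · rw [lg, Finset.sum_range_one, lc_zero, zero_smul]
  · rw [pow_one, sub_eq_zero]
    exact LinearMap.ext fun x => fam_none ρ g x

theorem exists_LLth (ρ : ∀ i, P →* (T i →ₗ[L] T i)) (θ : Additive Lˣ →+ L) (g : P) :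
    ∃ J ∈ LL ρ, ∀ i β, ∀ x ∈ Module.End.maxGenEigenspace (ρ i g) β, J i x = ext0 θ β • x := by
  obtain ⟨J, hJ, h⟩ := exists_GG (fam ρ) θ g
  refine ⟨_, LL_of_GG ρ hJ ?_, fun i β x hx => h (some i) β x hx⟩
  apply LinearMap.ext
  intro x
  have h1 : x ∈ Module.End.maxGenEigenspace ((fam ρ none).ρ g) 1 := by
    refine mem_gen.2 ⟨1, ?_⟩
    rw [pow_one, map_one, LinearMap.sub_apply, Module.End.one_apply, sub_eq_zero]
    exact fam_none ρ g x
  rw [h none 1 x h1, ext0_ne θ one_ne_zero]
  have h2 : Additive.ofMul (Units.mk0 (1 : L) one_ne_zero) = 0 := by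
    rw [Units.mk0_one]
    rfl
  rw [h2, map_zero, zero_smul]
  rfl

/-- **An element of infinite order gives a nonzero operator.** -/
theorem exists_LLne (ρ : ∀ i, P →* (T i →ₗ[L] T i)) (g : P) (i : ι)
    (hinf : ∀ n : ℕ, 0 < n → (ρ i g) ^ n ≠ 1) : ∃ J ∈ LL ρ, J i ≠ 0 := by
  classical
  have hinj : Injective (ρ i g) := fun x y h => by
    rw [← rho_inv' (ρ i) g x, h, rho_inv']
  by_cases hroot : ∀ β : L, Module.End.HasEigenvalue (ρ i g) β → ∃ m : ℕ, 0 < m ∧ β ^ m = 1
  · -- a power is unipotent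
    have hfin : {β : L | Module.End.HasEigenvalue (ρ i g) β}.Finite := by
      have h1 := Module.End.finite_hasEigenvalue (ρ i g)
      exact h1
    choose! m hm0 hm using hroot
    set M := ∏ β ∈ hfin.toFinset, m β with hM
    have hM0 : 0 < M := Finset.prod_pos fun β hβ => hm0 β (by simpa using hβ)
    have hMβ : ∀ β, Module.End.HasEigenvalue (ρ i g) β → β ^ M = 1 := by
      intro β hβ
      obtain ⟨c, hc⟩ := Finset.dvd_prod_of_mem m (a := β) (s := hfin.toFinset) (by simpa using hβ)
      rw [hM, hc, pow_mul, hm β hβ, one_pow]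
    have hnil : (ρ i (g ^ M) - 1) ^ (finrank L (T i)) = 0 := by
      rw [map_pow]
      refine op_ext (ρ i g) fun β x hx => ?_
      rw [LinearMap.zero_apply]
      by_cases hx0 : x = 0
      · rw [hx0, map_zero]
      have hβ : Module.End.HasEigenvalue (ρ i g) β := by
        have hex := mem_gen.1 hx
        have h1 := Nat.find_spec hex
        have h2 : Nat.find hex ≠ 0 := by
          intro h0
          rw [h0, pow_zero, Module.End.one_apply] at h1
          exact hx0 h1
        obtain ⟨r, hr⟩ := Nat.exists_eq_succ_of_ne_zero h2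
        have h3 := Nat.find_min hex (m := r) (by omega)
        rw [hr, pow_succ', Module.End.mul_apply, LinearMap.sub_apply,
          Module.algebraMap_end_apply, sub_eq_zero] at h1
        exact Module.End.hasEigenvalue_of_hasEigenvector ⟨Module.End.mem_eigenspace_iff.2 h1, h3⟩
      have h1 := gen_pow hx M
      rw [hMβ β hβ] at h1
      have h2 : x ∈ Module.End.genEigenspace ((ρ i g) ^ M) 1 (finrank L (T i) : ℕ) := by
        rw [← Module.End.maxGenEigenspace_eq_genEigenspace_finrank]
        exact h1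
      rw [Module.End.mem_genEigenspace_nat] at h2
      simpa using h2
    obtain ⟨J, hJ, h⟩ := exists_LLlog ρ (g ^ M)
    refine ⟨J, hJ, ?_⟩
    rw [h i _ hnil]
    exact lg_ne hnil (by rw [map_pow]; exact hinf M hM0)
  · push Not at hroot
    obtain ⟨β, hβ, hβm⟩ := hroot
    have hβ0 : β ≠ 0 := by
      rintro rfl
      obtain ⟨x, hx⟩ := hβ.exists_hasEigenvector
      have h1 := hx.apply_eq_smul
      rw [zero_smul] at h1
      exact hx.2 (hinj (by rw [h1, map_zero]))
    obtain ⟨θ, hθ⟩ := exists_theta (Units.mk0 β hβ0) fun n hn h => hβm n hn (by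
      have h1 := congrArg Units.val h
      simpa using h1)
    obtain ⟨J, hJ, h⟩ := exists_LLth ρ θ g
    refine ⟨J, hJ, fun h0 => ?_⟩
    obtain ⟨x, hx⟩ := hβ.exists_hasEigenvector
    have h1 : x ∈ Module.End.maxGenEigenspace (ρ i g) β := by
      refine mem_gen.2 ⟨1, ?_⟩
      rw [pow_one, LinearMap.sub_apply, Module.algebraMap_end_apply, hx.apply_eq_smul, sub_self]
    have h2 := h i β x h1
    rw [h0, LinearMap.zero_apply, ext0_ne θ hβ0] at h2
    exact (smul_ne_zero hθ hx.2) h2.symm

end cl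

end Pool.Agent.X292.TG
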