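import Pool.Agent.X292.TG.Gou

/-!
# Reflections and unipotent elements of rank two
-/

set_option linter.unusedSectionVars false

namespace Pool.Agent.X292.TG

open Module Finset Function Pool.Agent.TH125.Gal Pool.Agent.Y127.G Pool.Agent.Y127.C

variable {K : Type} [Field K] [CharZero K] {T : Type} [AddCommGroup T] [Module K T]
  [FiniteDimensional K T] {G : Type} [Group G] {σ : G →* (T →ₗ[K] T)}
  {L : Submodule K (Module.End K T)} {B : T →ₗ[K] T →ₗ[K] K}

section

variable (hsy : ∀ x y, B x y = B y x) (hnd : ∀ x, (∀ y, B x y = 0) → x = 0)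
  (hB : ∀ g x y, B (σ g x) (σ g y) = B x y) (hSI : SI σ)
  (hsk : ∀ A ∈ L, Skew B A) (hbr : ∀ A ∈ L, ∀ A' ∈ L, br A A' ∈ L)
  (hconj : ∀ γ : G, ∀ A ∈ L, (σ γ * A * σ γ⁻¹ : Module.End K T) ∈ L)

include hsy hnd hB hSI hsk hbr hconj in
theorem full_of_eichler {u w : T} (hu : u ≠ 0) (huu : B u u = 0) (huw : B u w = 0)
    (hww : B w w ≠ 0) (hN : oo B 1 u w ∈ L) (x y : T) : oo B 1 x y ∈ L := by
  obtain ⟨q, hqq, hqu, hH⟩ := hyp_of_null (μ := fun _ => 1) hsy hnd
    (fun g x y => by rw [hB, one_mul]) hSI hbr hconj hu huu huw hww hN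
  exact full_of_SI (μ := fun _ => 1) (Or.inl rfl) (fun x y => by rw [one_mul, hsy]) hnd
    (fun g x y => by rw [hB, one_mul]) hSI hsk hbr hconj huu hqq hqu hH x y

include hsy hnd hB hSI hsk hbr hconj in
/-- **A nilpotent operator of rank two whose square is not zero.** -/
theorem full_of_log {N : Module.End K T} (hN : N ∈ L) (h3 : N ^ 3 = 0) (h2 : N ^ 2 ≠ 0)
    (hr : finrank K (LinearMap.range N) ≤ 2) (x y : T) : oo B 1 x y ∈ L := by
  have sN := hsk N hN
  obtain ⟨x₀, hx₀⟩ : ∃ x, N (N x) ≠ 0 := by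
    by_contra hcon
    push Not at hcon
    apply h2
    apply LinearMap.ext
    intro x
    rw [pow_two, Module.End.mul_apply, hcon, LinearMap.zero_apply]
  have h3' : ∀ x, N (N (N x)) = 0 := by
    intro x
    have h1 := LinearMap.congr_fun h3 x
    rw [pow_succ, pow_two, Module.End.mul_apply, Module.End.mul_apply, LinearMap.zero_apply] at h1
    exact h1
  set u := N (N x₀) with hu
  set w := N x₀ with hw
  have sk : ∀ a b, B (N a) b = -B a (N b) := fun a b => by linear_combination sN a b
  have hNu : N u = 0 := h3' x₀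
  have hNw : N w = u := rfl
  have huu : B u u = 0 := by
    have h1 : B (N w) u = -B w (N u) := sk w u
    rw [hNu, map_zero, neg_zero, hNw] at h1
    exact h1
  have huw : B u w = 0 := by
    have h1 := sk w w
    rw [hNw, hsy w u] at h1
    have h2 : (2 : K) * B u w = 0 := by linear_combination h1
    exact (mul_eq_zero.1 h2).resolve_left two_ne_zero
  have hww' : B w w = -B x₀ u := by
    have h1 := sk x₀ w
    rw [hNw] at h1
    exact h1
  have hspan : ∀ z, ∃ a b : K, N z = a • u + b • w := by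
    have hli : LinearIndependent K ![(⟨u, LinearMap.mem_range_self N w⟩ : LinearMap.range N),
        ⟨w, LinearMap.mem_range_self N x₀⟩] := by
      rw [LinearIndependent.pair_iff]
      intro a b hab
      have h1 : a • u + b • w = 0 := congrArg Subtype.val hab
      have h2 := congrArg N h1
      rw [map_add, map_smul, map_smul, hNu, hNw, smul_zero, zero_add, map_zero] at h2
      have hb := (smul_eq_zero.1 h2).resolve_right hx₀
      rw [hb, zero_smul, add_zero] at h1
      exact ⟨(smul_eq_zero.1 h1).resolve_right hx₀, hb⟩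
    have hc : Fintype.card (Fin 2) = finrank K (LinearMap.range N) := by
      have h1 := hli.fintype_card_le_finrank
      rw [Fintype.card_fin] at h1 ⊢
      omega
    have hsp := hli.span_eq_top_of_card_eq_finrank' hc
    intro z
    have h1 : (⟨N z, LinearMap.mem_range_self N z⟩ : LinearMap.range N) ∈
        Submodule.span K (Set.range ![(⟨u, LinearMap.mem_range_self N w⟩ : LinearMap.range N),
          ⟨w, LinearMap.mem_range_self N x₀⟩]) := by
      rw [hsp]
      exact Submodule.mem_top
    rw [Matrix.range_cons, Matrix.range_cons, Matrix.range_empty, Set.union_empty,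
      Set.singleton_union, Submodule.mem_span_pair] at h1
    obtain ⟨a, b, hab⟩ := h1
    exact ⟨a, b, (congrArg Subtype.val hab).symm⟩
  have hux : B x₀ u ≠ 0 := by
    intro h0
    apply hx₀
    refine hnd u fun z => ?_
    obtain ⟨a, b, hz⟩ := hspan z
    have h1 : B u z = B x₀ (N (N z)) := by
      rw [hu, sk, sk]
      rw [neg_neg]
    rw [h1, hz, map_add, map_smul, map_smul, hNu, hNw, smul_zero, zero_add, map_smul, h0,
      smul_zero]
  have hww : B w w ≠ 0 := by
    rw [hww']
    exact neg_ne_zero.2 hux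
  have hN2 : oo B 1 u w = B w w • N := by
    apply LinearMap.ext
    intro z
    obtain ⟨a, b, hz⟩ := hspan z
    have h1 : B (N z) w = b * B w w := by
      rw [hz, map_add, map_smul, map_smul, LinearMap.add_apply, LinearMap.smul_apply,
        LinearMap.smul_apply, huw, smul_zero, zero_add, smul_eq_mul]
    have h2 : B (N z) w = -B z u := sk z w
    have h3 : B (N z) x₀ = -B z w := sk z x₀
    have h4 : B w x₀ = 0 := by
      have h5 := skew_diag hsy sN x₀
      rw [hsy]
      exact h5
    have h5 : B (N z) x₀ = a * B u x₀ := by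
      rw [hz, map_add, map_smul, map_smul, LinearMap.add_apply, LinearMap.smul_apply,
        LinearMap.smul_apply, h4, smul_zero, add_zero, smul_eq_mul]
    rw [oo_one_apply, LinearMap.smul_apply, hz, smul_add, smul_smul, smul_smul]
    have e1 : B w z = B w w * a := by
      rw [hww', hsy x₀ u, hsy w z]
      linear_combination h3 - h5
    have e2 : B u z = -(B w w * b) := by
      rw [hsy u z]
      linear_combination h2 - h1
    rw [e1, e2, neg_smul, sub_neg_eq_add]
  exact full_of_eichler hsy hnd hB hSI hsk hbr hconj hx₀ huu huw hww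
    (by rw [hN2]; exact L.smul_mem _ hN) x y

include hsy hnd hB hSI hsk hbr hconj in
/-- **A reflection which normalizes the Lie algebra.** -/
theorem full_of_refl {r : Module.End K T} (hr : ∀ x y, B (r x) (r y) = B x y)
    (hrr : ∀ A ∈ L, ∃ A' ∈ L, ∀ x, A' (r x) = r (A x)) {δ : T}
    (hδ : ∀ x, ∃ c : K, r x = x + c • δ) (hr1 : r ≠ 1) {A₀ : Module.End K T} (hA₀ : A₀ ∈ L)
    (hA₀0 : A₀ ≠ 0) (x y : T) : oo B 1 x y ∈ L := by
  choose φ hφ using hδ
  have hiso : ∀ x y, φ y * B x δ + φ x * B δ y + φ x * φ y * B δ δ = 0 := by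
    intro x y
    have h1 := hr x y
    rw [hφ x, hφ y] at h1
    simp only [map_add, map_smul, LinearMap.add_apply, LinearMap.smul_apply, smul_eq_mul] at h1
    linear_combination h1
  obtain ⟨x₀, hx₀⟩ : ∃ x, φ x ≠ 0 := by
    by_contra hcon
    push Not at hcon
    apply hr1
    apply LinearMap.ext
    intro x
    rw [hφ, hcon, zero_smul, add_zero, Module.End.one_apply]
  have hδ0 : δ ≠ 0 := by
    rintro rfl
    apply hr1
    apply LinearMap.ext
    intro x
    rw [hφ, smul_zero, add_zero, Module.End.one_apply]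
  have hc : B δ δ ≠ 0 := by
    intro h0
    have h1 : ∀ x, φ x * B x δ = 0 := by
      intro x
      have h2 := hiso x x
      rw [h0, hsy δ x] at h2
      have h3 : (2 : K) * (φ x * B x δ) = 0 := by linear_combination h2
      exact (mul_eq_zero.1 h3).resolve_left two_ne_zero
    have h2 : B x₀ δ = 0 := (mul_eq_zero.1 (h1 x₀)).resolve_left hx₀
    apply hδ0
    refine hnd δ fun y => ?_
    have h3 := hiso x₀ y
    rw [h2, h0, mul_zero, mul_zero, zero_add, add_zero] at h3
    exact (mul_eq_zero.1 h3).resolve_left hx₀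
  have hφx : ∀ x, φ x * B δ δ = -(2 * B δ x) := by
    have h1 : φ δ = -2 := by
      have h2 := hiso δ δ
      have h3 : φ δ * B δ δ * (φ δ + 2) = 0 := by linear_combination h2
      rcases mul_eq_zero.1 h3 with h4 | h4
      · exfalso
        have h5 := (mul_eq_zero.1 h4).resolve_right hc
        have h6 := hiso x₀ δ
        rw [h5, zero_mul, zero_add, mul_zero, zero_mul, add_zero] at h6
        exact (mul_ne_zero hx₀ hc) h6
      · linear_combination h4
    intro x
    have h2 := hiso x δ
    rw [h1, hsy x δ] at h2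
    linear_combination -h2
  -- the operators `oo δ (A δ)`
  have hP1 : ∀ A ∈ L, oo B 1 δ (A δ) ∈ L := by
    intro A hA
    obtain ⟨A', hA', h1⟩ := hrr A hA
    have sA := hsk A hA
    have hφδ : φ (A δ) = 0 := by
      have h2 := hφx (A δ)
      have h3 := skew_diag hsy sA δ
      rw [h3, mul_zero, neg_zero] at h2
      exact (mul_eq_zero.1 h2).resolve_right hc
    have hrδ : ∀ x, r (r x) = x := by
      intro x
      have h2 : φ (r x) * B δ δ = -(φ x) * B δ δ := by
        have h3 := hφx (r x)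
        have h4 := hφx x
        rw [hφ x] at h3 ⊢
        rw [map_add, map_smul, smul_eq_mul] at h3
        linear_combination h3 - h4
      have h3 := mul_right_cancel₀ hc h2
      rw [hφ (r x), h3, hφ x, neg_smul]
      abel
    have h2 : ∀ x, A' x = A x + φ (A x) • δ + φ x • A δ := by
      intro x
      have h3 := h1 (r x)
      rw [hrδ, hφ x, map_add, map_smul, map_add, map_smul, hφ (A x), hφ (A δ), hφδ, zero_smul,
        add_zero] at h3
      exact h3
    have h3 : oo B 1 δ (A δ) = (2⁻¹ * B δ δ) • (A' - A) := by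
      apply LinearMap.ext
      intro x
      rw [oo_one_apply, LinearMap.smul_apply, LinearMap.sub_apply, h2]
      have e1 : φ (A x) * B δ δ = 2 * B (A δ) x := by
        rw [hφx]
        linear_combination -2 * sA δ x
      have e2 : (2⁻¹ * B δ δ) • (A x + φ (A x) • δ + φ x • A δ - A x) =
          (2⁻¹ * (φ (A x) * B δ δ)) • δ + (2⁻¹ * (φ x * B δ δ)) • A δ := by
        module
      rw [e2, e1, hφx, ← mul_assoc, inv_mul_cancel₀ (two_ne_zero' K), one_mul,
        show (2⁻¹ : K) * -(2 * B δ x) = -B δ x by ring, neg_smul, sub_eq_add_neg]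
    rw [h3]
    exact L.smul_mem _ (L.sub_mem hA' hA)
  set P := Par L B 1 δ with hP
  have hδP : δ ∈ P := by
    rw [hP, mem_Par, oo_one_self]
    exact L.zero_mem
  have hP2 : ∀ A ∈ L, ∀ x ∈ P, A x ∈ P := by
    intro A hA x hx
    have sA := hsk A hA
    have h1 := hP1 _ (hbr A hA _ hx)
    rw [br_oo sA, LinearMap.add_apply, oo_one_apply, oo_one_apply] at h1
    have h2 : (B x δ • A δ - B (A δ) δ • x + (B (A x) δ • δ - B δ δ • A x)) ∈ P := h1
    have h3 : A δ ∈ P := hP1 A hA
    have h4 : B (A δ) δ = 0 := by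
      rw [hsy]
      exact skew_diag hsy sA δ
    rw [h4, zero_smul, sub_zero] at h2
    have h5 : B δ δ • A x ∈ P := by
      have h6 := P.sub_mem (P.add_mem (P.smul_mem (B x δ) h3) (P.smul_mem (B (A x) δ) hδP)) h2
      have e : B x δ • A δ + B (A x) δ • δ - (B x δ • A δ + (B (A x) δ • δ - B δ δ • A x)) =
          B δ δ • A x := by abel
      rwa [e] at h6
    have h6 := P.smul_mem (B δ δ)⁻¹ h5
    rwa [smul_smul, inv_mul_cancel₀ hc, one_smul] at h6
  have hP3 : ∀ x ∈ P, ∀ y ∈ P, oo B 1 x y ∈ L := by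
    intro x hx y hy
    have h1 := hbr _ hx _ hy
    rw [br_oo (hsk _ hx), oo_one_apply, oo_one_apply, oo_sub_left, oo_smul_left, oo_smul_left,
      oo_sub_right, oo_smul_right, oo_smul_right, oo_one_self, smul_zero, zero_sub] at h1
    have h2 : B δ δ • oo B 1 x y ∈ L := by
      have h3 := L.sub_mem (L.sub_mem (L.smul_mem (B x δ) hy) (L.smul_mem (B δ y) hx)) h1
      have e : B x δ • oo B 1 δ y - B δ y • oo B 1 δ x - (B x δ • oo B 1 δ y -
          B δ δ • oo B 1 x y + -(B δ y • oo B 1 δ x)) = B δ δ • oo B 1 x y := by abel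
      rwa [e] at h3
    have h3 := L.smul_mem (B δ δ)⁻¹ h2
    rwa [smul_smul, inv_mul_cancel₀ hc, one_smul] at h3
  -- a second vector
  obtain ⟨w, hwP, hw0, hwδ⟩ : ∃ w ∈ P, w ≠ 0 ∧ B δ w = 0 := by
    by_contra hcon
    push Not at hcon
    have h1 : ∀ A ∈ L, A δ = 0 := by
      intro A hA
      by_contra h0
      exact hcon (A δ) (hP1 A hA) h0 (skew_diag hsy (hsk A hA) δ)
    let Z : Submodule K T :=
      { carrier := {x | ∀ A ∈ L, A x = 0}
        zero_mem' := fun A _ => map_zero A
        add_mem' := fun hx hy A hA => by rw [map_add, hx A hA, hy A hA, add_zero]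
        smul_mem' := fun c x hx A hA => by rw [map_smul, hx A hA, smul_zero] }
    rcases hSI ⊤ inferInstance Z (fun g _ x hx A hA => by
      have h2 := hx _ (hconj g⁻¹ A hA)
      rw [inv_inv, Module.End.mul_apply, Module.End.mul_apply] at h2
      have h3 := congrArg (σ g) h2
      rwa [rho_inv, map_zero] at h3) with h2 | h2
    · have h3 : δ ∈ Z := h1
      rw [h2, Submodule.mem_bot] at h3
      exact hδ0 h3
    · apply hA₀0
      apply LinearMap.ext
      intro x
      have h3 : x ∈ Z := by rw [h2]; exact Submodule.mem_top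
      rw [LinearMap.zero_apply]
      exact h3 A₀ hA₀
  by_cases hiso' : ∃ p ∈ P, p ≠ 0 ∧ B p p = 0
  · obtain ⟨p, hp, hp0, hpp⟩ := hiso'
    by_cases hrad : ∃ z ∈ P, B p z ≠ 0
    · obtain ⟨z, hz, hpz⟩ := hrad
      set q := (B p z)⁻¹ • (z - (2⁻¹ * B z z * (B p z)⁻¹) • p) with hq
      have hqP : q ∈ P := P.smul_mem _ (P.sub_mem hz (P.smul_mem _ hp))
      have hqq : B q q = 0 := by
        simp only [hq, map_smul, map_sub, LinearMap.smul_apply, LinearMap.sub_apply, smul_eq_mul,
          hpp, hsy z p]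
        field_simp
        ring
      have hqp : B q p = 1 := by
        simp only [hq, map_smul, map_sub, LinearMap.smul_apply, LinearMap.sub_apply, smul_eq_mul,
          hpp, hsy z p]
        field_simp
        ring
      exact full_of_SI (μ := fun _ => 1) (Or.inl rfl) (fun x y => by rw [one_mul, hsy]) hnd
        (fun g x y => by rw [hB, one_mul]) hSI hsk hbr hconj hpp hqq hqp (hP3 p hp q hqP) x y
    · push Not at hrad
      refine full_of_eichler hsy hnd hB hSI hsk hbr hconj hp0 hpp (hrad δ hδP) hc ?_ x y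
      exact hP3 p hp δ hδP
  · push Not at hiso'
    have hstb : ∀ γ : G, (∀ x ∈ P, σ γ x ∈ P) ∨ ∀ x ∈ P, ∀ y ∈ P, B (σ γ x) y = 0 := by
      intro γ
      by_contra hcon
      rw [not_or] at hcon
      obtain ⟨h1, h2⟩ := hcon
      push Not at h2
      obtain ⟨z, hz, y₀, hy₀, hzy⟩ := h2
      apply h1
      -- `σ γ P` is stable under `L`
      have hst : ∀ A ∈ L, ∀ z ∈ P, ∃ z' ∈ P, A (σ γ z) = σ γ z' := by
        intro A hA z hz
        refine ⟨_, hP2 _ (hconj γ⁻¹ A hA) z hz, ?_⟩
        rw [inv_inv, Module.End.mul_apply, Module.End.mul_apply, rho_inv]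
      -- a common vector
      obtain ⟨x₁, hx₁P, hx₁0, hx₁⟩ : ∃ x ∈ P, x ≠ 0 ∧ B x (σ γ z) = 0 := by
        by_cases hz1 : B δ (σ γ z) = 0
        · exact ⟨δ, hδP, hδ0, hz1⟩
        · refine ⟨w - (B w (σ γ z) * (B δ (σ γ z))⁻¹) • δ, P.sub_mem hwP (P.smul_mem _ hδP), ?_,
            ?_⟩
          · intro h0
            have h3 := congrArg (B w) h0
            rw [map_sub, map_smul, hsy w δ, hwδ, smul_zero, sub_zero, map_zero] at h3
            exact hiso' w hwP hw0 h3
          · rw [map_sub, map_smul, LinearMap.sub_apply, LinearMap.smul_apply, smul_eq_mul,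
              mul_assoc, inv_mul_cancel₀ hz1, mul_one, sub_self]
      have hx₁Q : ∃ z' ∈ P, x₁ = σ γ z' := by
        obtain ⟨z', hz', h3⟩ := hst _ (hP3 x₁ hx₁P y₀ hy₀) z hz
        rw [oo_one_apply, hx₁, zero_smul, sub_zero] at h3
        refine ⟨(B y₀ (σ γ z))⁻¹ • z', P.smul_mem _ hz', ?_⟩
        rw [map_smul, ← h3, smul_smul, inv_mul_cancel₀ (by rw [hsy]; exact hzy), one_smul]
      obtain ⟨z₁, hz₁, rfl⟩ := hx₁Q
      have hle : ∀ y ∈ P, ∃ z' ∈ P, y = σ γ z' := by
        intro y hy
        obtain ⟨z', hz', h3⟩ := hst _ (hP3 y hy _ hx₁P) z₁ hz₁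
        rw [oo_one_apply] at h3
        have h4 : B (σ γ z₁) (σ γ z₁) ≠ 0 := hiso' _ hx₁P hx₁0
        refine ⟨(B (σ γ z₁) (σ γ z₁))⁻¹ • (z' + B y (σ γ z₁) • z₁),
          P.smul_mem _ (P.add_mem hz' (P.smul_mem _ hz₁)), ?_⟩
        rw [map_smul, map_add, map_smul, ← h3, sub_add_cancel, smul_smul, inv_mul_cancel₀ h4,
          one_smul]
      have hPle : P ≤ P.map (σ γ) := fun y hy => by
        obtain ⟨z', hz', h3⟩ := hle y hy
        exact ⟨z', hz', h3.symm⟩
      have heq : P = P.map (σ γ) :=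
        Submodule.eq_of_le_of_finrank_le hPle (Submodule.finrank_map_le _ _)
      intro x hx
      rw [heq]
      exact ⟨x, hx, rfl⟩
    have htop : P = ⊤ := orbit_top (μ := fun _ => 1) (fun _ => one_ne_zero)
      (fun x y h => by rw [hsy, h]) (fun g x y => by rw [hB, one_mul]) hSI hδP hδP hc hstb
    exact hP3 x (by rw [htop]; exact Submodule.mem_top) y (by rw [htop]; exact Submodule.mem_top)

end

end Pool.Agent.X292.TG
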