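import Pool.Agent.X292.TG.Dsc
import Pool.Agent.X292.TG.Ful

/-!
# Base change of the forms
-/

set_option linter.unusedSectionVars false

namespace Pool.Agent.X292.TG

open TensorProduct Module Function Finset Pool.Agent.TH125.Gal Pool.Agent.Y127.G
  Pool.Agent.Y127.C Pool.Agent.TH118.SG

section one

variable {k : Type} [Field k] {V : Type} [AddCommGroup V] [Module k V]

/-- base change of a bilinear form -/
noncomputable def bcB (K : Type) [Field K] [Algebra k K] (B : V →ₗ[k] V →ₗ[k] k) :
    (K ⊗[k] V) →ₗ[K] (K ⊗[k] V) →ₗ[K] K := LinearMap.BilinForm.baseChange K B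

variable [CharZero k] [FiniteDimensional k V] {K : Type} [Field K] [CharZero K] [Algebra k K]
  {B : V →ₗ[k] V →ₗ[k] k}

theorem bcB_tmul (a b : K) (x y : V) : bcB K B (a ⊗ₜ x) (b ⊗ₜ y) = B x y • (a * b) :=
  LinearMap.BilinForm.baseChange_tmul B a x b y

theorem bcB_one (x y : V) : bcB K B ((1 : K) ⊗ₜ x) ((1 : K) ⊗ₜ y) = algebraMap k K (B x y) := by
  rw [bcB_tmul, mul_one, Algebra.smul_def, mul_one]

theorem tm_eq (c : K) (x : V) : c ⊗ₜ[k] x = c • ((1 : K) ⊗ₜ[k] x) := by
  rw [TensorProduct.smul_tmul', smul_eq_mul, mul_one]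

/-- equality of linear maps on a base change -/
theorem lin_ext {M : Type} [AddCommGroup M] [Module K M] {f g : (K ⊗[k] V) →ₗ[K] M}
    (h : ∀ x : V, f ((1 : K) ⊗ₜ x) = g ((1 : K) ⊗ₜ x)) : f = g := by
  apply LinearMap.ext
  intro z
  induction z using TensorProduct.induction_on with
  | zero => rw [map_zero, map_zero]
  | tmul c w => rw [tm_eq, map_smul, map_smul, h]
  | add x y hx hy => rw [map_add, map_add, hx, hy]

theorem bil_ext {f g : (K ⊗[k] V) →ₗ[K] (K ⊗[k] V) →ₗ[K] K}
    (h : ∀ x y : V, f ((1 : K) ⊗ₜ x) ((1 : K) ⊗ₜ y) = g ((1 : K) ⊗ₜ x) ((1 : K) ⊗ₜ y)) : f = g :=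
  lin_ext fun x => lin_ext fun y => h x y

theorem bcB_symm (hsy : ∀ x y, B x y = B y x) (z z' : K ⊗[k] V) :
    bcB K B z z' = bcB K B z' z := by
  have h : bcB K B = (bcB K B).flip := bil_ext fun x y => by
    rw [LinearMap.flip_apply, bcB_one, bcB_one, hsy]
  exact LinearMap.congr_fun (LinearMap.congr_fun h z) z'

theorem bcB_nondeg (hnd : ∀ x, (∀ y, B x y = 0) → x = 0)
    (z : K ⊗[k] V) (hz : ∀ z', bcB K B z z' = 0) : z = 0 := by
  refine lam_zero fun lam => hnd _ fun y => ?_
  have key : ∀ z : K ⊗[k] V, lam (bcB K B z ((1 : K) ⊗ₜ y)) =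
      B (TensorProduct.lid k V (lam.rTensor V z)) y := by
    intro z
    induction z using TensorProduct.induction_on with
    | zero => simp
    | tmul c w =>
      rw [bcB_tmul, LinearMap.rTensor_tmul, TensorProduct.lid_tmul, mul_one, map_smul, map_smul,
        LinearMap.smul_apply, smul_eq_mul, smul_eq_mul, mul_comm]
    | add x y hx hy => simp only [map_add, LinearMap.add_apply, hx, hy]
  rw [← key, hz, map_zero]

theorem bcB_isom {A : V →ₗ[k] V} (h : ∀ x y, B (A x) (A y) = B x y) (z z' : K ⊗[k] V) :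
    bcB K B (A.baseChange K z) (A.baseChange K z') = bcB K B z z' := by
  have h1 : (bcB K B).compl₁₂ (A.baseChange K) (A.baseChange K) = bcB K B := bil_ext fun x y => by
    rw [LinearMap.compl₁₂_apply, LinearMap.baseChange_tmul, LinearMap.baseChange_tmul, bcB_one,
      bcB_one, h]
  exact LinearMap.congr_fun (LinearMap.congr_fun h1 z) z'

theorem bcB_skew {X : V →ₗ[k] V} (h : Skew B X) : Skew (bcB K B) (X.baseChange K) := by
  have h1 : (bcB K B).compl₁₂ (X.baseChange K) LinearMap.id +
      (bcB K B).compl₁₂ LinearMap.id (X.baseChange K) = 0 := bil_ext fun x y => by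
    rw [LinearMap.add_apply, LinearMap.add_apply, LinearMap.compl₁₂_apply,
      LinearMap.compl₁₂_apply, LinearMap.id_apply, LinearMap.id_apply, LinearMap.baseChange_tmul,
      LinearMap.baseChange_tmul, bcB_one, bcB_one, ← map_add, h x y, map_zero]
    rfl
  intro z z'
  exact LinearMap.congr_fun (LinearMap.congr_fun h1 z) z'

theorem bc_oo (x y : V) : (oo B 1 x y).baseChange K =
    oo (bcB K B) 1 ((1 : K) ⊗ₜ x) ((1 : K) ⊗ₜ y) := by
  refine lin_ext fun z => ?_
  rw [LinearMap.baseChange_tmul, oo_one_apply, oo_one_apply, bcB_one, bcB_one,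
    TensorProduct.tmul_sub, TensorProduct.tmul_smul, TensorProduct.tmul_smul, algebraMap_smul,
    algebraMap_smul]

/-- the operators `oo` on a base change -/
theorem oo_mem_bc {a : Submodule K (Module.End K (K ⊗[k] V))}
    (h : ∀ x y : V, (oo B 1 x y).baseChange K ∈ a) (z z' : K ⊗[k] V) :
    oo (bcB K B) 1 z z' ∈ a := by
  induction z using TensorProduct.induction_on with
  | zero => rw [oo_zero_left]; exact a.zero_mem
  | tmul c w =>
    rw [tm_eq c w, oo_smul_left]
    refine a.smul_mem _ ?_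
    induction z' using TensorProduct.induction_on with
    | zero => rw [oo_zero_right]; exact a.zero_mem
    | tmul c' w' =>
      rw [tm_eq c' w', oo_smul_right]
      refine a.smul_mem _ ?_
      rw [← bc_oo]
      exact h w w'
    | add x y hx hy => rw [oo_add_right]; exact a.add_mem hx hy
  | add x y hx hy => rw [oo_add_left]; exact a.add_mem hx hy

theorem bc_br (A A' : V →ₗ[k] V) : (br A A').baseChange K =
    br (A.baseChange K : Module.End K (K ⊗[k] V)) (A'.baseChange K) := by
  refine lin_ext fun z => ?_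
  rw [LinearMap.baseChange_tmul, br, br, LinearMap.sub_apply, LinearMap.sub_apply,
    Module.End.mul_apply, Module.End.mul_apply, Module.End.mul_apply, Module.End.mul_apply,
    LinearMap.baseChange_tmul, LinearMap.baseChange_tmul, LinearMap.baseChange_tmul,
    LinearMap.baseChange_tmul, TensorProduct.tmul_sub]

end one

/-- a hyperbolic pair over an algebraically closed field -/
theorem exists_hyp {K : Type} [Field K] [CharZero K] [IsAlgClosed K] {V : Type} [AddCommGroup V]
    [Module K V] [FiniteDimensional K V] {B : V →ₗ[K] V →ₗ[K] K} (hsy : ∀ x y, B x y = B y x)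
    (hnd : ∀ x, (∀ y, B x y = 0) → x = 0) (hn : 1 < finrank K V) :
    ∃ p q : V, B p p = 0 ∧ B q q = 0 ∧ B q p = 1 := by
  obtain ⟨z, hz0, hzz⟩ : ∃ z, z ≠ 0 ∧ B z z = 0 := by
    have hnt : Nontrivial V := Module.nontrivial_of_finrank_pos (R := K) (by omega)
    obtain ⟨x, hx0⟩ := exists_ne (0 : V)
    by_cases hxx : B x x = 0
    · exact ⟨x, hx0, hxx⟩
    obtain ⟨y, hy⟩ := exists_linearIndependent_pair_of_one_lt_finrank (R := K) hn hx0
    rw [LinearIndependent.pair_iff] at hy
    obtain ⟨s, hs⟩ := IsAlgClosed.exists_eq_mul_self (B x y * B x y - B x x * B y y)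
    refine ⟨y + ((B x x)⁻¹ * (s - B x y)) • x, ?_, ?_⟩
    · intro h0
      have h1 := hy ((B x x)⁻¹ * (s - B x y)) 1 (by rw [one_smul, add_comm]; exact h0)
      exact one_ne_zero h1.2
    · simp only [map_add, map_smul, LinearMap.add_apply, LinearMap.smul_apply, smul_eq_mul]
      rw [hsy y x]
      field_simp
      linear_combination -hs
  obtain ⟨w, hw⟩ : ∃ w, B z w ≠ 0 := by
    by_contra hcon
    push Not at hcon
    exact hz0 (hnd _ hcon)
  refine ⟨z, (B z w)⁻¹ • (w - (2⁻¹ * B w w * (B z w)⁻¹) • z), hzz, ?_, ?_⟩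
  · simp only [map_smul, map_sub, LinearMap.smul_apply, LinearMap.sub_apply, smul_eq_mul, hzz,
      hsy w z]
    field_simp
    ring
  · simp only [map_smul, map_sub, LinearMap.smul_apply, LinearMap.sub_apply, smul_eq_mul, hzz,
      hsy w z]
    field_simp
    ring

end Pool.Agent.X292.TG
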