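import Pool.Agent.Y127.C.Aut2

/-!
# Goursat's lemma for Lie algebras of skew operators on several quadratic spaces
(an abstract version of the starting files `Pool.Agent.Y127.C.Ful`, `Pool.Agent.Y127.C.Aut2`)
-/

set_option linter.unusedSectionVars false

namespace Pool.Agent.X292.TG

open Module Finset Function Pool.Agent.TH125.Gal Pool.Agent.Y127.G Pool.Agent.Y127.C

variable {K : Type} [Field K] [CharZero K] {ι : Type} {T : ι → Type}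
  [∀ i, AddCommGroup (T i)] [∀ i, Module K (T i)] [∀ i, FiniteDimensional K (T i)]

/-- the bracket of two families -/
def bk (D D' : ∀ i, T i →ₗ[K] T i) : ∀ i, T i →ₗ[K] T i := fun i => br (D i) (D' i)

theorem bk_eq (D D' : ∀ i, T i →ₗ[K] T i) (i : ι) : bk D D' i = br (D i) (D' i) := rfl

/-- the operators on one member -/
def rs (𝔪 : Submodule K (∀ i, T i →ₗ[K] T i)) (t : ι) : Submodule K (Module.End K (T t)) :=
  𝔪.map (LinearMap.proj t : (∀ i, T i →ₗ[K] T i) →ₗ[K] _)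

/-- the families which vanish on the members in `S` -/
def kl (𝔪 : Submodule K (∀ i, T i →ₗ[K] T i)) (S : Set ι) :
    Submodule K (∀ i, T i →ₗ[K] T i) where
  carrier := {D | D ∈ 𝔪 ∧ ∀ a ∈ S, D a = 0}
  zero_mem' := ⟨𝔪.zero_mem, fun _ _ => rfl⟩
  add_mem' := by
    rintro D D' ⟨hD, h⟩ ⟨hD', h'⟩
    exact ⟨𝔪.add_mem hD hD', fun a ha => by rw [Pi.add_apply, h a ha, h' a ha, add_zero]⟩
  smul_mem' := by
    rintro c D ⟨hD, h⟩
    exact ⟨𝔪.smul_mem c hD, fun a ha => by rw [Pi.smul_apply, h a ha, smul_zero]⟩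

/-- some family in `𝔪` vanishes on `a` and does not vanish on `t` -/
def Gd (𝔪 : Submodule K (∀ i, T i →ₗ[K] T i)) (t a : ι) : Prop := ∃ D ∈ 𝔪, D a = 0 ∧ D t ≠ 0

/-- a member on which the skew operators occur -/
structure Mb (𝔪 : Submodule K (∀ i, T i →ₗ[K] T i)) (t : ι) where
  B : T t →ₗ[K] T t →ₗ[K] K
  sy : ∀ x y, B x y = B y x
  nd : ∀ x, (∀ y, B x y = 0) → x = 0
  dim : finrank K (T t) = 3 ∨ 5 ≤ finrank K (T t)
  p : T t
  q : T t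
  pp : B p p = 0
  qq : B q q = 0
  qp : B q p = 1
  skew : ∀ {D : ∀ i, T i →ₗ[K] T i}, D ∈ 𝔪 → Skew B (D t)
  all : ∀ x y, ∃ D ∈ 𝔪, D t = oo B 1 x y

variable {𝔪 : Submodule K (∀ i, T i →ₗ[K] T i)} {t t' : ι} (o : Mb 𝔪 t) (o' : Mb 𝔪 t')
  (hbk : ∀ D ∈ 𝔪, ∀ D' ∈ 𝔪, bk D D' ∈ 𝔪)

include hbk in
theorem kl_bk {S : Set ι} {D D' : ∀ i, T i →ₗ[K] T i} (hD : D ∈ 𝔪) (hD' : D' ∈ kl 𝔪 S) :
    bk D D' ∈ kl 𝔪 S :=
  ⟨hbk _ hD _ hD'.1, fun a ha => by rw [bk_eq, hD'.2 a ha, br_zero_right]⟩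

/-- **A nonzero ideal is everything.** -/
theorem Mb.ideal {M : Submodule K (∀ i, T i →ₗ[K] T i)} (hM1 : M ≤ 𝔪)
    (hMi : ∀ D ∈ 𝔪, ∀ D' ∈ M, bk D D' ∈ M) (hne : ∃ D ∈ M, D t ≠ 0) (x y : T t) :
    ∃ D ∈ M, D t = oo o.B 1 x y := by
  obtain ⟨D0, hD0, hne⟩ := hne
  refine simple_so (a := rs M t) o.sy o.nd o.pp o.qq o.qp ?_ ?_ o.dim
    (A := D0 t) ⟨D0, hD0, rfl⟩ hne x y
  · rintro _ ⟨D, hD, rfl⟩
    exact o.skew (hM1 hD)
  · rintro u v _ ⟨D, hD, rfl⟩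
    obtain ⟨D', hD', ha⟩ := o.all u v
    refine ⟨bk D' D, hMi D' hD' D hD, ?_⟩
    change bk D' D t = _
    rw [bk_eq, ha]
    rfl

include hbk in
theorem Mb.good_all {a : ι} (h : Gd 𝔪 t a) (x y : (T t)) :
    ∃ D ∈ 𝔪, D a = 0 ∧ D t = oo o.B 1 x y := by
  obtain ⟨D0, hD0, ha, ht⟩ := h
  obtain ⟨D, hD, hDt⟩ := o.ideal (M := kl 𝔪 {a}) (fun D hD => hD.1)
    (fun D hD D' hD' => kl_bk hbk hD hD')
    ⟨D0, ⟨hD0, fun b hb => by rw [Set.mem_singleton_iff.1 hb]; exact ha⟩, ht⟩ x y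
  exact ⟨D, hD.1, hD.2 a rfl, hDt⟩

include hbk in
/-- **Goursat.** -/
theorem Mb.good_finset (S : Finset ι) (h : ∀ a ∈ S, Gd 𝔪 t a) (x y : (T t)) :
    ∃ D ∈ 𝔪, (∀ a ∈ S, D a = 0) ∧ D t = oo o.B 1 x y := by
  classical
  induction S using Finset.induction_on generalizing x y with
  | empty =>
    obtain ⟨D, hD, hDt⟩ := o.all x y
    exact ⟨D, hD, fun a ha => absurd ha (Finset.notMem_empty a), hDt⟩
  | insert b S hb ih =>
    have h1 : ∀ x y, ∃ D ∈ 𝔪, (∀ a ∈ S, D a = 0) ∧ D t = oo o.B 1 x y := fun x y =>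
      ih (fun a ha => h a (Finset.mem_insert_of_mem ha)) x y
    have h2 : ∀ x y, ∃ D ∈ 𝔪, D b = 0 ∧ D t = oo o.B 1 x y := fun x y =>
      o.good_all hbk (h b (Finset.mem_insert_self b S)) x y
    obtain ⟨u, hu⟩ := exists_br_ne o.sy o.nd o.pp o.qq o.qp (by have := o.dim; omega)
    obtain ⟨D, hD, hDS, hDt⟩ := h1 o.p o.q
    obtain ⟨D', hD', hDb, hDt'⟩ := h2 o.p u
    have hm : bk D D' ∈ kl 𝔪 ((insert b S : Finset ι) : Set ι) := by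
      refine ⟨hbk _ hD _ hD', fun a ha => ?_⟩
      rcases Finset.mem_insert.1 (Finset.mem_coe.1 ha) with rfl | ha
      · rw [bk_eq, hDb, br_zero_right]
      · rw [bk_eq, hDS a ha, br_zero_left]
    have hne : bk D D' t ≠ 0 := by
      rw [bk_eq, hDt, hDt']
      exact hu
    obtain ⟨D'', hD'', hDt''⟩ := o.ideal (M := kl 𝔪 ((insert b S : Finset ι) : Set ι))
      (fun D hD => hD.1) (fun D hD D' hD' => kl_bk hbk hD hD') ⟨bk D D', hm, hne⟩ x y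
    exact ⟨D'', hD''.1, fun a ha => hD''.2 a (Finset.mem_coe.2 ha), hDt''⟩

/-- the dimension criterion for forms -/
theorem Mb.good_of_lt {a : ι} (W : Submodule K (Module.End K (T a)))
    (hW : ∀ D ∈ 𝔪, D a ∈ W) (hdim : finrank K W < finrank K (SkewS o.B)) : Gd 𝔪 t a := by
  by_contra hcon
  have h0 : ∀ D ∈ 𝔪, D a = 0 → D t = 0 := by
    intro D hD ha
    by_contra ht
    exact hcon ⟨D, hD, ha, ht⟩
  let f : 𝔪 →ₗ[K] Module.End K (T a) :=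
    (LinearMap.proj a : (∀ i, T i →ₗ[K] T i) →ₗ[K] _) ∘ₗ 𝔪.subtype
  let g : 𝔪 →ₗ[K] Module.End K (T t) :=
    (LinearMap.proj t : (∀ i, T i →ₗ[K] T i) →ₗ[K] _) ∘ₗ 𝔪.subtype
  obtain ⟨Φ, hΦ⟩ := exists_factor f g fun x hx => h0 x.1 x.2 hx
  have hΦ' : ∀ D ∈ 𝔪, Φ (D a) = D t := fun D hD => hΦ ⟨D, hD⟩
  have hle : SkewS o.B ≤ W.map Φ := by
    intro X hX
    obtain ⟨D, hD, hDt⟩ := skew_mem (a := rs 𝔪 t) o.sy o.nd (fun x y => o.all x y) hX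
    exact ⟨D a, hW D hD, by rw [hΦ' D hD]; exact hDt⟩
  have h2 := Submodule.finrank_mono hle
  have h3 := Submodule.finrank_map_le Φ W
  omega

include o in
/-- **The criterion for symmetric forms.** -/
theorem Mb.good_of_sym {a : ι} (B₁ : T a →ₗ[K] T a →ₗ[K] K) (hsk : ∀ D ∈ 𝔪, Skew B₁ (D a))
    (hsy : ∀ x y, B₁ x y = B₁ y x) (hnd : ∀ x, (∀ y, B₁ x y = 0) → x = 0)
    (hdim : finrank K (T a) < finrank K (T t)) : Gd 𝔪 t a := by
  refine o.good_of_lt (SkewS B₁) (fun D hD => hsk D hD) ?_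
  have h1 := finrank_skew_le_sym hsy hnd
  have h2 := le_finrank_skew o.sy o.nd
  have h3 := o.dim
  rcases Nat.eq_zero_or_pos (finrank K (T a)) with h4 | h4
  · rw [h4, Finset.range_zero, Finset.sum_empty] at h1
    have h5 := sum_lt (m := 2) (n := finrank K (T t)) (by omega) (by norm_num)
    omega
  · have h5 := sum_lt hdim h4
    omega

include o o' hbk in
/-- symmetry -/
theorem Mb.good_symm (h : Gd 𝔪 t' t) : Gd 𝔪 t t' := by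
  by_contra hng
  have h0 : ∀ D ∈ 𝔪, D t' = 0 → D t = 0 := by
    intro D hD ha
    by_contra ht
    exact hng ⟨D, hD, ha, ht⟩
  -- everything on `t'` can be killed on `t`
  have h2 : ∀ X : Module.End K (T t'), Skew o'.B X → ∃ D ∈ kl 𝔪 {t}, D t' = X := fun X hX =>
    skew_mem (a := rs (kl 𝔪 {t}) t') o'.sy o'.nd (fun x y => by
      obtain ⟨D, hD, hDt, hDt'⟩ := o'.good_all hbk h x y
      exact ⟨D, ⟨hD, fun a ha => by rw [Set.mem_singleton_iff.1 ha]; exact hDt⟩, hDt'⟩) hX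
  obtain ⟨D1, hD1, hD1t⟩ := o.all o.p o.q
  obtain ⟨D2, hD2, hD2t⟩ := h2 _ (o'.skew hD1)
  have h3 := h0 (D1 - D2) (𝔪.sub_mem hD1 hD2.1) (by rw [Pi.sub_apply, hD2t, sub_self])
  rw [Pi.sub_apply, hD2.2 t rfl, sub_zero, hD1t] at h3
  have h4 := LinearMap.congr_fun h3 o.p
  rw [H_p o.sy o.pp o.qp, LinearMap.zero_apply] at h4
  have h5 := o.qp
  rw [h4, map_zero] at h5
  exact zero_ne_one h5

include o o' hbk in
/-- **Members with a common hyperbolic operator.** -/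
theorem Mb.good_or_iso {p q : (T t)} {p' q' : (T t')} (hpp : o.B p p = 0)
    (hqq : o.B q q = 0) (hqp : o.B q p = 1) (hpp' : o'.B p' p' = 0)
    (hqq' : o'.B q' q' = 0) (hqp' : o'.B q' p' = 1) {D₁ : ∀ i, (T i) →ₗ[K] (T i)}
    (hD₁ : D₁ ∈ 𝔪) (h1t : D₁ t = oo o.B 1 p q) (h1t' : D₁ t' = oo o'.B 1 p' q')
    (hng : ¬Gd 𝔪 t t') :
    ∃ ψ : T t' →ₗ[K] T t, ψ ≠ 0 ∧ (∀ D ∈ 𝔪, ∀ x, ψ (D t' x) = D t (ψ x)) ∧
      ∀ χ : T t' →ₗ[K] T t, (∀ D ∈ 𝔪, ∀ x, χ (D t' x) = D t (χ x)) → ∃ ε : K, χ = ε • ψ := by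
  have hn : 3 ≤ finrank K (T t) := by have := o.dim; omega
  have hn' : 3 ≤ finrank K (T t') := by have := o'.dim; omega
  have h0 : ∀ D ∈ 𝔪, D t' = 0 → D t = 0 := by
    intro D hD ha
    by_contra ht
    exact hng ⟨D, hD, ha, ht⟩
  -- the lifts
  have hlift : ∀ X : Module.End K (T t'), Skew o'.B X → ∃ D ∈ 𝔪, D t' = X := fun X hX =>
    skew_mem (a := rs 𝔪 t') o'.sy o'.nd (fun x y => o'.all x y) hX
  have h0' : ∀ D ∈ 𝔪, D t = 0 → D t' = 0 := by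
    intro D hD ha
    by_contra ht
    exact hng (o.good_symm o' hbk ⟨D, hD, ha, ht⟩)
  let f : 𝔪 →ₗ[K] Module.End K (T t') :=
    (LinearMap.proj t' : (∀ i, T i →ₗ[K] T i) →ₗ[K] _) ∘ₗ 𝔪.subtype
  let g : 𝔪 →ₗ[K] Module.End K (T t) :=
    (LinearMap.proj t : (∀ i, T i →ₗ[K] T i) →ₗ[K] _) ∘ₗ 𝔪.subtype
  obtain ⟨Φ, hΦ⟩ := exists_factor f g fun x hx => h0 x.1 x.2 hx
  have hΦ' : ∀ D ∈ 𝔪, Φ (D t') = D t := fun D hD => hΦ ⟨D, hD⟩
  have hΦs : ∀ X, Skew o'.B X → Skew o.B (Φ X) := by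
    intro X hX
    obtain ⟨D, hD, rfl⟩ := hlift X hX
    rw [hΦ' D hD]
    exact o.skew hD
  have hΦb : ∀ X Y, Skew o'.B X → Skew o'.B Y → Φ (br X Y) = br (Φ X) (Φ Y) := by
    intro X Y hX hY
    obtain ⟨D, hD, rfl⟩ := hlift X hX
    obtain ⟨D', hD', rfl⟩ := hlift Y hY
    rw [hΦ' D hD, hΦ' D' hD', ← bk_eq, hΦ' _ (hbk _ hD _ hD'), bk_eq]
  have hΦi : ∀ X, Skew o'.B X → Φ X = 0 → X = 0 := by
    intro X hX hX0
    obtain ⟨D, hD, rfl⟩ := hlift X hX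
    rw [hΦ' D hD] at hX0
    exact h0' D hD hX0
  have hΦo : ∀ x y, ∃ X, Skew o'.B X ∧ Φ X = oo o.B 1 x y := by
    intro x y
    obtain ⟨D, hD, hDt⟩ := o.all x y
    exact ⟨D t', o'.skew hD, by rw [hΦ' D hD, hDt]⟩
  have hΦH : ∀ X, Skew o'.B X → Φ (br (oo o'.B 1 p' q') X) = br (oo o.B 1 p q) (Φ X) := by
    intro X hX
    obtain ⟨D, hD, rfl⟩ := hlift X hX
    have h1 := hΦ' _ (hbk _ hD₁ _ hD)
    rw [bk_eq, bk_eq, h1t, h1t'] at h1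
    rw [hΦ' D hD]
    exact h1
  obtain ⟨ψ, hψ0, hψ, hψu⟩ := exists_psi (Φ := Φ) o.sy o.nd o'.sy o'.nd hpp hqq hqp hpp' hqq'
    hqp' hΦs hΦb hΦi hΦo hΦH hn hn'
  refine ⟨ψ, hψ0, fun D hD x => ?_, fun χ hχ => hψu χ fun X hX x => ?_⟩
  · rw [hψ _ (o'.skew hD), hΦ' D hD]
  · obtain ⟨D, hD, rfl⟩ := hlift X hX
    rw [hχ D hD, hΦ' D hD]

/-- the two members determine each other -/
structure Lk (𝔪 : Submodule K (∀ i, T i →ₗ[K] T i)) (t t' : ι) : Prop where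
  a : ∀ D ∈ 𝔪, D t' = 0 → D t = 0
  b : ∀ D ∈ 𝔪, D t = 0 → D t' = 0


include o o' hbk in
theorem Mb.lnk (hng : ¬Gd 𝔪 t t') : Lk 𝔪 t t' := by
  refine ⟨fun D hD ha => ?_, fun D hD ha => ?_⟩
  · by_contra ht
    exact hng ⟨D, hD, ha, ht⟩
  · by_contra ht
    exact hng (o.good_symm o' hbk ⟨D, hD, ha, ht⟩)

include o o' hbk in
/-- **The common eigenspaces are planes.** -/
theorem Mb.dim_two (h : Lk 𝔪 t t') {p₁ q₁ p₂ q₂ : (T t')} (hpp : o'.B p₁ p₁ = 0)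
    (hqq : o'.B q₁ q₁ = 0) (hqp : o'.B q₁ p₁ = 1) (hpp₂ : o'.B p₂ p₂ = 0)
    (hqp₂ : o'.B q₂ p₂ = 1) (hp₂ : p₂ ∈ UU o'.B p₁ q₁)
    (hq₂ : q₂ ∈ UU o'.B p₁ q₁) {D₁ D₂ : ∀ i, (T i) →ₗ[K] (T i)} (hD₁ : D₁ ∈ 𝔪)
    (hD₂ : D₂ ∈ 𝔪) (h1 : D₁ t' = oo o'.B 1 p₁ q₁) (h2 : D₂ t' = oo o'.B 1 p₂ q₂)
    (h4₁ : ∀ z, D₁ t (D₁ t z) = (4⁻¹ : K) • z) (h4₂ : ∀ z, D₂ t (D₂ t z) = (4⁻¹ : K) • z) :
    finrank K (HF (D₁ t) ⊓ HF (D₂ t) : Submodule K (T t)) = 2 := by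
  obtain ⟨hp₂p, hp₂q⟩ := mem_UU.1 hp₂
  obtain ⟨hq₂p, hq₂q⟩ := mem_UU.1 hq₂
  have hpq₂ : o'.B p₂ q₂ = 1 := by rw [o'.sy, hqp₂]
  have s1 : Skew o'.B (oo o'.B 1 p₁ q₁) := skew_one o'.sy p₁ q₁
  have s2 : Skew o'.B (oo o'.B 1 p₂ q₂) := skew_one o'.sy p₂ q₂
  have a1 : oo o'.B 1 p₁ q₁ p₁ = p₁ := H_p o'.sy hpp hqp
  have a2 : oo o'.B 1 p₁ q₁ p₂ = 0 := H_U hp₂
  have a3 : oo o'.B 1 p₂ q₂ p₁ = 0 := by
    rw [oo_one_apply, o'.sy q₂ p₁, hq₂p, o'.sy p₂ p₁, hp₂p, zero_smul, zero_smul, sub_zero]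
  have a4 : oo o'.B 1 p₂ q₂ p₂ = p₂ := by
    rw [oo_one_apply, hqp₂, hpp₂, one_smul, zero_smul, sub_zero]
  obtain ⟨D₀, hD₀, hD₀t⟩ := o'.all p₁ p₂
  set X₀ := D₀ t with hX₀d
  have hX₀s : Skew o.B X₀ := o.skew hD₀
  have hX₀ : X₀ ≠ 0 := by
    intro h0
    have h3 := h.b D₀ hD₀ h0
    rw [hD₀t] at h3
    have h4 := LinearMap.congr_fun h3 q₂
    rw [oo_one_apply, hpq₂, hq₂p, one_smul, zero_smul, sub_zero, LinearMap.zero_apply] at h4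
    rw [h4, map_zero] at hqp
    exact zero_ne_one hqp
  have b1 : br (D₁ t) X₀ = X₀ := by
    have h3 : bk D₁ D₀ - D₀ ∈ 𝔪 := 𝔪.sub_mem (hbk _ hD₁ _ hD₀) hD₀
    have h4 := h.a _ h3 (by
      rw [Pi.sub_apply, bk_eq, h1, hD₀t, br_oo s1, a1, a2, oo_zero_right, add_zero, sub_self])
    rw [Pi.sub_apply, bk_eq] at h4
    exact sub_eq_zero.1 h4
  have b2 : br (D₂ t) X₀ = X₀ := by
    have h3 : bk D₂ D₀ - D₀ ∈ 𝔪 := 𝔪.sub_mem (hbk _ hD₂ _ hD₀) hD₀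
    have h4 := h.a _ h3 (by
      rw [Pi.sub_apply, bk_eq, h2, hD₀t, br_oo s2, a3, a4, oo_zero_left, zero_add, sub_self])
    rw [Pi.sub_apply, bk_eq] at h4
    exact sub_eq_zero.1 h4
  have hlow : 2 ≤ finrank K (HF (D₁ t) ⊓ HF (D₂ t) : Submodule K (T t)) :=
    two_le_rank o.sy o.nd hX₀s hX₀ fun v => ⟨mem_HF.2 (half_left h4₁ b1 v),
      mem_HF.2 (half_left h4₂ b2 v)⟩
  -- the upper bound
  obtain ⟨x₁, hx₁⟩ : ∃ x₁ : (HF (D₁ t) ⊓ HF (D₂ t) : Submodule K (T t)), x₁ ≠ 0 := by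
    have : Nontrivial (HF (D₁ t) ⊓ HF (D₂ t) : Submodule K (T t)) := by
      apply Module.nontrivial_of_finrank_pos (R := K)
      omega
    exact exists_ne 0
  have hx₁0 : (x₁ : (T t)) ≠ 0 := fun h0 => hx₁ (Subtype.ext h0)
  have m1 := mem_HF.1 x₁.2.1
  have m2 := mem_HF.1 x₁.2.2
  have key : ∀ y : (HF (D₁ t) ⊓ HF (D₂ t) : Submodule K (T t)), ∃ c : K,
      oo o.B 1 (x₁ : (T t)) (y : (T t)) = c • X₀ := by
    intro y
    have n1 := mem_HF.1 y.2.1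
    have n2 := mem_HF.1 y.2.2
    obtain ⟨E, hE, hEt⟩ := o.all (x₁ : (T t)) (y : (T t))
    have hh : (2⁻¹ : K) + 2⁻¹ = 1 := by norm_num
    have c1 : br (oo o'.B 1 p₁ q₁) (E t') = E t' := by
      have h3 : bk D₁ E - E ∈ 𝔪 := 𝔪.sub_mem (hbk _ hD₁ _ hE) hE
      have h4 := h.b _ h3 (by
        rw [Pi.sub_apply, bk_eq, hEt, br_oo (o.skew hD₁), m1, n1, oo_smul_left,
          oo_smul_right, ← add_smul, hh, one_smul, sub_self])
      rw [Pi.sub_apply, bk_eq, h1] at h4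
      exact sub_eq_zero.1 h4
    have c2 : br (oo o'.B 1 p₂ q₂) (E t') = E t' := by
      have h3 : bk D₂ E - E ∈ 𝔪 := 𝔪.sub_mem (hbk _ hD₂ _ hE) hE
      have h4 := h.b _ h3 (by
        rw [Pi.sub_apply, bk_eq, hEt, br_oo (o.skew hD₂), m2, n2, oo_smul_left,
          oo_smul_right, ← add_smul, hh, one_smul, sub_self])
      rw [Pi.sub_apply, bk_eq, h2] at h4
      exact sub_eq_zero.1 h4
    obtain ⟨hvU, hv⟩ := wt_one o'.sy hpp hqq hqp (o'.skew hE) c1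
    set v := -(E t' q₁) with hvd
    clear_value v
    rw [hv, br_oo s2, a3, oo_zero_left, zero_add] at c2
    have c3 : oo o'.B 1 p₁ (oo o'.B 1 p₂ q₂ v - v) = 0 := by
      rw [oo_sub_right, c2, sub_self]
    have hpq₁ : o'.B p₁ q₁ ≠ 0 := by
      rw [o'.sy, hqp]
      exact one_ne_zero
    have c4 := eq_smul_of_oo c3 hpq₁
    have c5 : o'.B (oo o'.B 1 p₂ q₂ v - v) q₁ = 0 := by
      rw [oo_one_apply]
      simp only [map_sub, map_smul, LinearMap.sub_apply, LinearMap.smul_apply]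
      rw [o'.sy p₂ q₁, hp₂q, o'.sy q₂ q₁, hq₂q, o'.sy v q₁, (mem_UU.1 hvU).2]
      simp
    rw [c5, mul_zero, zero_smul, sub_eq_zero] at c4
    have c6 : o'.B p₂ v = 0 := by
      have h3 := congrArg (o'.B p₂) c4
      rw [oo_one_apply, map_sub, map_smul, map_smul, hpp₂, hpq₂, smul_zero, zero_sub,
        smul_eq_mul, mul_one] at h3
      have h4 : (2 : K) * o'.B p₂ v = 0 := by linear_combination -h3
      exact (mul_eq_zero.1 h4).resolve_left two_ne_zero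
    have c7 : v = o'.B q₂ v • p₂ := by
      have h3 := c4
      rw [oo_one_apply, c6, zero_smul, sub_zero] at h3
      exact h3.symm
    refine ⟨o'.B q₂ v, ?_⟩
    have h3 : E - o'.B q₂ v • D₀ ∈ 𝔪 := 𝔪.sub_mem hE (𝔪.smul_mem _ hD₀)
    have h4 := h.a _ h3 (by
      rw [Pi.sub_apply, Pi.smul_apply, hD₀t, hv, ← oo_smul_right, ← c7, sub_self])
    rw [Pi.sub_apply, Pi.smul_apply, hEt] at h4
    exact sub_eq_zero.1 h4
  let lam : (HF (D₁ t) ⊓ HF (D₂ t) : Submodule K (T t)) →ₗ[K] Module.End K (T t) :=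
    { toFun := fun y => oo o.B 1 (x₁ : (T t)) (y : (T t))
      map_add' := fun x y => oo_add_right _ _ _
      map_smul' := fun c x => oo_smul_right _ _ _ }
  have hr : finrank K (LinearMap.range lam) ≤ 1 := by
    have h3 : LinearMap.range lam ≤ Submodule.span K {X₀} := by
      rintro _ ⟨y, rfl⟩
      obtain ⟨c, hc⟩ := key y
      exact Submodule.mem_span_singleton.2 ⟨c, hc.symm⟩
    have h4 := Submodule.finrank_mono h3
    rwa [finrank_span_singleton hX₀] at h4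
  have hk : finrank K (LinearMap.ker lam) ≤ 1 := by
    have h3 : LinearMap.ker lam ≤ Submodule.span K {x₁} := by
      intro y hy
      obtain ⟨z, hz⟩ : ∃ z, o.B (x₁ : (T t)) z ≠ 0 := by
        by_contra hcon
        push Not at hcon
        exact hx₁0 (o.nd _ hcon)
      have h4 := eq_smul_of_oo (LinearMap.mem_ker.1 hy) hz
      exact Submodule.mem_span_singleton.2 ⟨_, Subtype.ext h4.symm⟩
    have h4 := Submodule.finrank_mono h3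
    rwa [finrank_span_singleton hx₁] at h4
  have h3 := LinearMap.finrank_range_add_finrank_ker lam
  omega


include o o' hbk in
/-- **Members of orthogonal type which are not isomorphic.** -/
theorem Mb.good_or [IsAlgClosed K] (h8 : finrank K (T t) ≠ 8) : Gd 𝔪 t t' ∨
    ∃ ψ : T t' →ₗ[K] T t, ψ ≠ 0 ∧ (∀ D ∈ 𝔪, ∀ x, ψ (D t' x) = D t (ψ x)) ∧
      ∀ χ : T t' →ₗ[K] T t, (∀ D ∈ 𝔪, ∀ x, χ (D t' x) = D t (χ x)) → ∃ ε : K, χ = ε • ψ := by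
  by_contra hcon
  rw [not_or] at hcon
  obtain ⟨hng, hiso⟩ := hcon
  have hlink := o.lnk o' hbk hng
  have hdim := o.dim
  have hdim' := o'.dim
  have heq : finrank K (T t') = finrank K (T t) := by
    rcases lt_trichotomy (finrank K (T t')) (finrank K (T t)) with h | h | h
    · exact absurd (o.good_of_sym o'.B (fun D hD => o'.skew hD) o'.sy o'.nd h) hng
    · exact h
    · exact absurd (o.good_symm o' hbk (o'.good_of_sym o.B (fun D hD => o.skew hD) o.sy o.nd h)) hng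
  have key : ∀ p q : (T t'), o'.B p p = 0 → o'.B q q = 0 → o'.B q p = 1 →
      ∀ D ∈ 𝔪, D t' = oo o'.B 1 p q → ∀ z, D t (D t z) = (4⁻¹ : K) • z := by
    intro p q hpp hqq hqp D hD hDt'
    have h0 : D t ≠ 0 := by
      intro h0
      have h1 := hlink.b D hD h0
      rw [hDt'] at h1
      have h2 := LinearMap.congr_fun h1 p
      rw [H_p o'.sy hpp hqp, LinearMap.zero_apply] at h2
      rw [h2, map_zero] at hqp
      exact zero_ne_one hqp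
    have hc : ∀ x y, br (D t) (br (D t) (br (D t) (oo o.B 1 x y))) =
        br (D t) (oo o.B 1 x y) := by
      intro x y
      obtain ⟨E, hE, hEt⟩ := o.all x y
      have h1 : bk D (bk D (bk D E)) - bk D E ∈ 𝔪 :=
        𝔪.sub_mem (hbk _ hD _ (hbk _ hD _ (hbk _ hD _ hE))) (hbk _ hD _ hE)
      have h2 := hlink.a _ h1 (by
        rw [Pi.sub_apply, bk_eq, bk_eq, bk_eq, hDt',
          br_cube o'.sy o'.nd hpp hqq hqp (o'.skew hE), sub_self])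
      rw [Pi.sub_apply, bk_eq, bk_eq, bk_eq, hEt] at h2
      exact sub_eq_zero.1 h2
    rcases two_types o.sy o.nd (by omega) (o.skew hD) h0 hc o.pp o.qq o.qp with
      ⟨p₀, q₀, hpp₀, hqq₀, hqp₀, hY⟩ | h4
    · exact absurd (o.good_or_iso o' hbk hpp₀ hqq₀ hqp₀ hpp hqq hqp hD hY hDt' hng) hiso
    · exact h4
  obtain ⟨D₁, hD₁, h1⟩ := o'.all o'.p o'.q
  have h41 := key _ _ o'.pp o'.qq o'.qp D₁ hD₁ h1
  rcases hdim with hd3 | hd5
  · exact half_even o.nd (o.skew hD₁) h41 hd3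
  · obtain ⟨p₂, hp₂, q₂, hq₂, hpp₂, hqq₂, hqp₂⟩ := exists_second o'.sy o'.nd o'.pp o'.qq o'.qp
      (by omega)
    obtain ⟨D₂, hD₂, h2⟩ := o'.all p₂ q₂
    have h42 := key _ _ hpp₂ hqq₂ hqp₂ D₂ hD₂ h2
    have hpq₁ : o'.B o'.p o'.q = 1 := by rw [o'.sy, o'.qp]
    have hpq₂ : o'.B p₂ q₂ = 1 := by rw [o'.sy, hqp₂]
    have hsw : ∀ {p q : (T t')} {D : ∀ i, (T i) →ₗ[K] (T i)}, D t' = oo o'.B 1 p q →
        (-D) t' = oo o'.B 1 q p := by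
      intro p q D h
      rw [Pi.neg_apply, h, oo_one_swap p q]
    have hsw4 : ∀ {D : ∀ i, (T i) →ₗ[K] (T i)}, (∀ z, D t (D t z) = (4⁻¹ : K) • z) →
        ∀ z, (-D) t ((-D) t z) = (4⁻¹ : K) • z := by
      intro D h z
      rw [Pi.neg_apply, LinearMap.neg_apply, LinearMap.neg_apply, map_neg, neg_neg, h]
    have hUsw : ∀ {p q x : (T t')}, x ∈ UU o'.B p q → x ∈ UU o'.B q p := fun h =>
      UU_swap.2 h
    have d1 := o.dim_two o' hbk hlink o'.pp o'.qq o'.qp hpp₂ hqp₂ hp₂ hq₂ hD₁ hD₂ h1 h2 h41 h42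
    have d2 := o.dim_two o' hbk hlink o'.pp o'.qq o'.qp hqq₂ hpq₂ hq₂ hp₂ hD₁
      (𝔪.neg_mem hD₂) h1 (hsw h2) h41 (hsw4 h42)
    have d3 := o.dim_two o' hbk hlink o'.qq o'.pp hpq₁ hpp₂ hqp₂ (hUsw hp₂) (hUsw hq₂)
      (𝔪.neg_mem hD₁) hD₂ (hsw h1) h2 (hsw4 h41) h42
    have d4 := o.dim_two o' hbk hlink o'.qq o'.pp hpq₁ hqq₂ hpq₂ (hUsw hq₂) (hUsw hp₂)
      (𝔪.neg_mem hD₁) (𝔪.neg_mem hD₂) (hsw h1) (hsw h2) (hsw4 h41) (hsw4 h42)
    -- the operators commute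
    have hcomm : ∀ z, D₁ t (D₂ t z) = D₂ t (D₁ t z) := by
      have a2 : oo o'.B 1 o'.p o'.q p₂ = 0 := H_U hp₂
      have a3 : oo o'.B 1 o'.p o'.q q₂ = 0 := H_U hq₂
      have h3 := hlink.a (bk D₁ D₂) (hbk _ hD₁ _ hD₂) (by
        rw [bk_eq, h1, h2, br_oo (skew_one o'.sy _ _), a2, a3, oo_zero_left, oo_zero_right,
          add_zero])
      intro z
      have h4 := LinearMap.congr_fun h3 z
      rw [bk_eq] at h4
      exact sub_eq_zero.1 h4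
    have e0 := split_half h41 ⊤ (fun _ _ => Submodule.mem_top)
    rw [top_inf_eq, top_inf_eq, finrank_top] at e0
    have e1 := split_half h42 (HF (D₁ t)) (fun z hz => by
      rw [mem_HF] at hz ⊢
      rw [hcomm, hz, map_smul])
    have e2 := split_half h42 (HF (-(D₁ t))) (fun z hz => by
      rw [mem_HF, LinearMap.neg_apply] at hz ⊢
      rw [hcomm, ← map_neg, hz, map_smul])
    have d1' : finrank K (HF (D₁ t) ⊓ HF (D₂ t) : Submodule K (T t)) = 2 := d1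
    have d2' : finrank K (HF (D₁ t) ⊓ HF (-(D₂ t)) : Submodule K (T t)) = 2 := d2
    have d3' : finrank K (HF (-(D₁ t)) ⊓ HF (D₂ t) : Submodule K (T t)) = 2 := d3
    have d4' : finrank K (HF (-(D₁ t)) ⊓ HF (-(D₂ t)) : Submodule K (T t)) = 2 := d4
    simp only [HF] at d1' d2' d3' d4' e1 e2
    omega

end Pool.Agent.X292.TG
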