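import Pool.Agent.X292.TG.Bc
import Pool.Agent.X292.TG.Gou

/-!
# The Lie algebra of the forms which are fixed by a subgroup of finite index
-/

set_option linter.unusedSectionVars false

namespace Pool.Agent.X292.TG

open TensorProduct Module Function Finset Pool.Agent.TH125.Gal Pool.Agent.Y127.G
  Pool.Agent.Y127.C

variable {k : Type} [Field k] {P : Type} [Group P] {ι : Type} {T : ι → Type}
  [∀ i, AddCommGroup (T i)] [∀ i, Module k (T i)]

/-- The multilinear map `f` is fixed by a subgroup of finite index of `P`. -/
def Fixd {S : Type} {M : Type} [AddCommGroup M] [Module k M] (ρ : ∀ i, P →* (T i →ₗ[k] T i))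
    (s : S → ι) (f : MultilinearMap k (fun j => T (s j)) M) : Prop :=
  ∃ Δ : Subgroup P, Δ.FiniteIndex ∧ ∀ g ∈ Δ, ∀ v : ∀ j, T (s j),
    f (fun j => ρ (s j) g (v j)) = f v

variable [CharZero k] [∀ i, FiniteDimensional k (T i)]

section

variable {S : Type} [Fintype S] [DecidableEq S] {s : S → ι} {M : Type} [AddCommGroup M]
  [Module k M]

theorem kil_bk {D D' : ∀ i, T i →ₗ[k] T i} {f : MultilinearMap k (fun j => T (s j)) M}
    (h : Kil s D f) (h' : Kil s D' f) : Kil s (bk D D') f := by
  intro v
  have e : ∀ A A' : ∀ i, T i →ₗ[k] T i, Kil s A f →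
      ∑ i, (f (update v i (A (s i) (A' (s i) (v i)))) +
        ∑ j ∈ univ.erase i, f (update (update v i (A' (s i) (v i))) j (A (s j) (v j)))) = 0 := by
    intro A A' hA
    refine Finset.sum_eq_zero fun i _ => ?_
    have h1 := hA (update v i (A' (s i) (v i)))
    rw [← Finset.add_sum_erase _ _ (Finset.mem_univ i), update_self, update_idem] at h1
    rw [← h1]
    congr 1
    refine Finset.sum_congr rfl fun j hj => ?_
    rw [update_of_ne (Finset.ne_of_mem_erase hj)]
  have h1 := e D D' h
  have h2 := e D' D h'
  rw [Finset.sum_add_distrib] at h1 h2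
  have h3 : ∑ i, ∑ j ∈ univ.erase i, f (update (update v i (D' (s i) (v i))) j (D (s j) (v j))) =
      ∑ i, ∑ j ∈ univ.erase i, f (update (update v i (D (s i) (v i))) j (D' (s j) (v j))) := by
    rw [Finset.sum_comm' (s' := fun j => univ.erase j) (t' := univ) (by
      intro x y
      simp only [Finset.mem_univ, Finset.mem_erase, ne_eq, and_true, true_and]
      exact ⟨fun h h' => h h'.symm, fun h h' => h h'.symm⟩)]
    refine Finset.sum_congr rfl fun j _ => Finset.sum_congr rfl fun i hi => ?_
    rw [update_comm (Finset.ne_of_mem_erase hi)]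
  have h4 : ∀ j, f (update v j (bk D D' (s j) (v j))) =
      f (update v j (D (s j) (D' (s j) (v j)))) - f (update v j (D' (s j) (D (s j) (v j)))) := by
    intro j
    rw [bk_eq, br, LinearMap.sub_apply, MultilinearMap.map_update_sub]
    rfl
  rw [Finset.sum_congr rfl fun j _ => h4 j, Finset.sum_sub_distrib]
  rw [h3] at h1
  have h5 := h1.trans h2.symm
  exact sub_eq_zero.2 (add_right_cancel h5)

end

/-- The families of operators which kill all forms that are fixed by a subgroup of finite index. -/
def LL (ρ : ∀ i, P →* (T i →ₗ[k] T i)) : Submodule k (∀ i, T i →ₗ[k] T i) where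
  carrier := {D | ∀ (S : Type) [Fintype S] [DecidableEq S] (s : S → ι)
    (f : MultilinearMap k (fun j => T (s j)) k), Fixd ρ s f → Kil s D f}
  zero_mem' := by
    intro S _ _ s f _ v
    exact Finset.sum_eq_zero fun j _ => f.map_coord_zero j (update_self _ _ _)
  add_mem' := by
    intro D D' hD hD' S _ _ s f hf v
    have h1 := hD S s f hf v
    have h2 := hD' S s f hf v
    change ∑ j, f (update v j ((D (s j) + D' (s j)) (v j))) = 0
    simp only [LinearMap.add_apply, MultilinearMap.map_update_add, Finset.sum_add_distrib]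
    rw [h1, h2, add_zero]
  smul_mem' := by
    intro c D hD S _ _ s f hf v
    have h1 := hD S s f hf v
    change ∑ j, f (update v j ((c • D (s j)) (v j))) = 0
    simp only [LinearMap.smul_apply, MultilinearMap.map_update_smul]
    rw [← Finset.smul_sum, h1, smul_zero]

theorem LL_bk {ρ : ∀ i, P →* (T i →ₗ[k] T i)} (D : ∀ i, T i →ₗ[k] T i) (hD : D ∈ LL ρ)
    (D' : ∀ i, T i →ₗ[k] T i) (hD' : D' ∈ LL ρ) : bk D D' ∈ LL ρ :=
  fun S _ _ s f hf => kil_bk (hD S s f hf) (hD' S s f hf)

/-- conjugation by the elements of a second group which respects the fixed forms -/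
theorem LL_conj {ρ : ∀ i, P →* (T i →ₗ[k] T i)} {G : Type} [Group G]
    {σ : ∀ i, G →* (T i →ₗ[k] T i)} {γ : G}
    (hn : ∀ (S : Type) [Fintype S] [DecidableEq S] (s : S → ι)
      (f : MultilinearMap k (fun j => T (s j)) k), Fixd ρ s f →
        Fixd ρ s (f.compLinearMap fun j => σ (s j) γ))
    {D : ∀ i, T i →ₗ[k] T i} (hD : D ∈ LL ρ) :
    (fun i => (σ i γ * D i * σ i γ⁻¹ : Module.End k (T i))) ∈ LL ρ := by
  intro S _ _ s f hf v
  have h1 := hD S s _ (hn S s f hf) (fun j => σ (s j) γ⁻¹ (v j))
  rw [← h1]
  refine Finset.sum_congr rfl fun j _ => ?_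
  rw [MultilinearMap.compLinearMap_apply]
  congr 1
  funext i
  by_cases h : i = j
  · subst h
    rw [update_self, update_self]
    rfl
  · rw [update_of_ne h, update_of_ne h, rho_inv]

/-- forms which are fixed by everything give skew operators -/
theorem LL_skew {ρ : ∀ i, P →* (T i →ₗ[k] T i)} {i : ι} {B : T i →ₗ[k] T i →ₗ[k] k}
    (hB : ∀ g x y, B (ρ i g x) (ρ i g y) = B x y) {D : ∀ i, T i →ₗ[k] T i} (hD : D ∈ LL ρ) :
    Skew B (D i) := by
  intro x y
  have u10 : (1 : Fin 2) ≠ 0 := by decide
  have u01 : (0 : Fin 2) ≠ 1 := by decide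
  let f : MultilinearMap k (fun _ : Fin 2 => T i) k :=
    { toFun := fun v => B (v 0) (v 1)
      map_update_add' := by
        intro _ v j x y
        rcases Fin.exists_fin_two.1 ⟨j, rfl⟩ with h | h
        · subst h
          rw [update_self, update_self, update_self, update_of_ne u10, update_of_ne u10,
            update_of_ne u10, map_add, LinearMap.add_apply]
        · subst h
          rw [update_self, update_self, update_self, update_of_ne u01, update_of_ne u01,
            update_of_ne u01, map_add]
      map_update_smul' := by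
        intro _ v j c x
        rcases Fin.exists_fin_two.1 ⟨j, rfl⟩ with h | h
        · subst h
          rw [update_self, update_self, update_of_ne u10, update_of_ne u10, map_smul,
            LinearMap.smul_apply]
        · subst h
          rw [update_self, update_self, update_of_ne u01, update_of_ne u01, map_smul] }
  have h1 := hD (Fin 2) (fun _ => i) f ⟨⊤, inferInstance, fun g _ v => hB g _ _⟩ ![x, y]
  rw [Fin.sum_univ_two] at h1
  exact h1

end Pool.Agent.X292.TG
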