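import Pool.Agent.X292.TG.Clo

/-!
# The main theorem
-/

set_option linter.unusedSectionVars false

namespace Pool.Agent.X292.TG

open TensorProduct Module Function Finset Pool.Agent.TH125.Gal Pool.Agent.Y127.G
  Pool.Agent.Y127.C Pool.Agent.TH118.SG

variable {k : Type} [Field k] [CharZero k] {P G : Type} [Group P] [Group G] {ι : Type}
  {T : ι → Type} [∀ i, AddCommGroup (T i)] [∀ i, Module k (T i)] [∀ i, FiniteDimensional k (T i)]
  {ρ : ∀ i, P →* (T i →ₗ[k] T i)} {σ : ∀ i, G →* (T i →ₗ[k] T i)}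
  {B : ∀ i, T i →ₗ[k] T i →ₗ[k] k}

/-- the hypotheses over one field -/
structure Hyp (ρ : ∀ i, P →* (T i →ₗ[k] T i)) (σ : ∀ i, G →* (T i →ₗ[k] T i))
    (B : ∀ i, T i →ₗ[k] T i →ₗ[k] k) : Prop where
  sy : ∀ i x y, B i x y = B i y x
  nd : ∀ i x, (∀ y, B i x y = 0) → x = 0
  rB : ∀ i g x y, B i (ρ i g x) (ρ i g y) = B i x y
  sB : ∀ i g x y, B i (σ i g x) (σ i g y) = B i x y
  dim : ∀ i, finrank k (T i) = 3 ∨ 5 ≤ finrank k (T i)
  d8 : ∀ i j, i ≠ j → finrank k (T i) = 8 → finrank k (T j) ≠ 8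
  nrm : ∀ (γ : G) (S : Type) [Fintype S] [DecidableEq S] (s : S → ι)
    (f : MultilinearMap k (fun j => T (s j)) k), Fixd ρ s f →
      Fixd ρ s (f.compLinearMap fun j => σ (s j) γ)
  niso : ∀ i j, i ≠ j → ∀ (ψ : T j →ₗ[k] T i) (ε : G → k), (∀ g, ε g = 1 ∨ ε g = -1) →
    (∀ g x, ψ (σ j g x) = ε g • σ i g (ψ x)) → ψ = 0
  all : ∀ i x y, oo (B i) 1 x y ∈ rs (LL ρ) i

section cl

variable {L : Type} [Field L] [CharZero L] [Algebra k L]

theorem Hyp.spn_bk : ∀ E ∈ spn L (LL ρ), ∀ E' ∈ spn L (LL ρ),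
    bk (T := fun i => L ⊗[k] T i) E E' ∈ spn L (LL ρ) := Pool.Agent.X292.TG.spn_bk LL_bk

theorem Hyp.spn_skew (h : Hyp ρ σ B) (i : ι) : ∀ E ∈ spn L (LL ρ), Skew (bcB L (B i)) (E i) :=
  Pool.Agent.X292.TG.spn_skew fun _ hD => LL_skew (h.rB i) hD

theorem Hyp.exists_mb [IsAlgClosed L] (h : Hyp ρ σ B) (i : ι) :
    ∃ o : Mb (T := fun i => L ⊗[k] T i) (spn L (LL ρ)) i, o.B = bcB L (B i) := by
  have hfr : finrank L (L ⊗[k] T i) = finrank k (T i) := Module.finrank_baseChange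
  have hdim := h.dim i
  obtain ⟨p, q, hpp, hqq, hqp⟩ := exists_hyp (bcB_symm (K := L) (h.sy i))
    (bcB_nondeg (K := L) (h.nd i)) (by rw [hfr]; omega)
  exact ⟨{ B := bcB L (B i)
           sy := bcB_symm (h.sy i)
           nd := bcB_nondeg (h.nd i)
           dim := by rw [hfr]; exact hdim
           p := p
           q := q
           pp := hpp
           qq := hqq
           qp := hqp
           skew := fun hD => h.spn_skew i _ hD
           all := fun x y => spn_all (h.all i) x y }, rfl⟩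

theorem Hyp.no_psi [IsAlgClosed L] (h : Hyp ρ σ B) {i j : ι} (hij : i ≠ j)
    {ψ : (L ⊗[k] T j) →ₗ[L] (L ⊗[k] T i)} (h0 : ψ ≠ 0)
    (hψ : ∀ E ∈ spn L (LL ρ), ∀ x, ψ (E j x) = E i (ψ x))
    (hu : ∀ χ : (L ⊗[k] T j) →ₗ[L] (L ⊗[k] T i),
      (∀ E ∈ spn L (LL ρ), ∀ x, χ (E j x) = E i (χ x)) → ∃ ε : L, χ = ε • ψ) : False := by
  classical
  have hfr : finrank L (L ⊗[k] T i) = finrank k (T i) := Module.finrank_baseChange
  have hdim := h.dim i
  have hdim' := h.dim j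
  have hfr' : finrank L (L ⊗[k] T j) = finrank k (T j) := Module.finrank_baseChange
  obtain ⟨p, q, hpp, hqq, hqp⟩ := exists_hyp (bcB_symm (K := L) (h.sy j))
    (bcB_nondeg (K := L) (h.nd j)) (by rw [hfr']; omega)
  set B' : (L ⊗[k] T j) →ₗ[L] (L ⊗[k] T j) →ₗ[L] L := (bcB L (B i)).compl₁₂ ψ ψ with hB'
  have hB'a : ∀ x y, B' x y = bcB L (B i) (ψ x) (ψ y) := fun x y => rfl
  have hform : ∀ x y, B' x y = B' p q * bcB L (B j) x y := by
    refine inv_form (bcB_symm (h.sy j)) (fun x y => ?_) hpp hqq hqp fun u v => ?_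
    · rw [hB'a, hB'a, bcB_symm (h.sy i)]
    · obtain ⟨E, hE, hEj⟩ := spn_all (L := L) (h.all j) u v
      intro x y
      rw [hB'a, hB'a, ← hEj, hψ E hE, hψ E hE]
      exact h.spn_skew i E hE _ _
  set c := B' p q with hc
  have hc0 : c ≠ 0 := by
    obtain ⟨x₀, hx₀⟩ : ∃ x, ψ x ≠ 0 := by
      by_contra hcon
      push Not at hcon
      exact h0 (LinearMap.ext fun x => by rw [hcon, LinearMap.zero_apply])
    obtain ⟨v, ⟨x, rfl⟩, hv⟩ := exists_ne_form (B := bcB L (B i)) (W := LinearMap.range ψ)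
      (by rw [hfr]; omega) (bcB_symm (h.sy i)) (bcB_nondeg (h.nd i)) (by
        rintro u v _ ⟨x, rfl⟩
        obtain ⟨E, hE, hEi⟩ := spn_all (L := L) (h.all i) u v
        exact ⟨E j x, by rw [hψ E hE, hEi]⟩) ⟨x₀, rfl⟩ hx₀
    intro hc0
    apply hv
    rw [← hB'a, hform, hc0, zero_mul]
  -- the elements of `G`
  have hε : ∀ g : G, ∃ ε : L, ∀ x, ψ ((σ j g).baseChange L x) =
      ε • (σ i g).baseChange L (ψ x) := by
    intro g
    have hinv : ∀ (a : ι) (z : L ⊗[k] T a),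
        (σ a g).baseChange L ((σ a g⁻¹).baseChange L z) = z := fun a z =>
      rho_inv (bcR L σ a) g z
    have hinv' : ∀ (a : ι) (z : L ⊗[k] T a),
        (σ a g⁻¹).baseChange L ((σ a g).baseChange L z) = z := fun a z =>
      rho_inv' (bcR L σ a) g z
    obtain ⟨ε, hε⟩ := hu ((σ i g⁻¹).baseChange L ∘ₗ ψ ∘ₗ (σ j g).baseChange L) (by
      intro E hE x
      have h1 := spn_conj (L := L) (𝔪 := LL ρ) (a := fun i => σ i g) (b := fun i => σ i g⁻¹)
        (fun D hD => LL_conj (σ := σ) (γ := g) (fun S _ _ s f hf => h.nrm g S s f hf) hD) E hE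
      have h2 := hψ _ h1 ((σ j g).baseChange L x)
      simp only [Module.End.mul_apply] at h2
      rw [hinv'] at h2
      simp only [LinearMap.comp_apply]
      rw [h2, hinv'])
    refine ⟨ε, fun x => ?_⟩
    have h2 := LinearMap.congr_fun hε x
    simp only [LinearMap.comp_apply, LinearMap.smul_apply] at h2
    rw [← map_smul, ← h2, hinv]
  choose ε hε using hε
  have hε2 : ∀ g, ε g = 1 ∨ ε g = -1 := by
    intro g
    have h1 := hB'a ((σ j g).baseChange L q) ((σ j g).baseChange L p)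
    rw [hε, hε, hform, bcB_isom (h.sB j g), hqp] at h1
    simp only [map_smul, LinearMap.smul_apply, smul_eq_mul] at h1
    rw [bcB_isom (h.sB i g), ← hB'a, hform, hqp] at h1
    have h2 : c * ((ε g - 1) * (ε g + 1)) = 0 := by linear_combination -h1
    rcases mul_eq_zero.1 ((mul_eq_zero.1 h2).resolve_left hc0) with h3 | h3
    · exact Or.inl (sub_eq_zero.1 h3)
    · exact Or.inr (eq_neg_of_add_eq_zero_left h3)
  -- descent
  apply h0
  refine lin_ext fun x => ?_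
  rw [LinearMap.zero_apply]
  refine lam_zero fun lam => ?_
  have h1 := h.niso i j hij (dsc2 lam ψ) (fun g => if ε g = 1 then 1 else -1) (fun g => by
    by_cases h : ε g = 1
    · rw [if_pos h]
      exact Or.inl rfl
    · rw [if_neg h]
      exact Or.inr rfl) (fun g x => by
    have h2 : (1 : L) ⊗ₜ[k] (σ j g x) = (σ j g).baseChange L ((1 : L) ⊗ₜ x) := by
      rw [LinearMap.baseChange_tmul]
    rw [dsc2_apply, dsc2_apply, h2, hε]
    by_cases h : ε g = 1
    · rw [if_pos h, h, one_smul, one_smul, lam_bc]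
    · have e : ∀ z : L ⊗[k] T i, (-1 : L) • z = -z := fun z => neg_one_smul L z
      have e' : ∀ z : T i, (-1 : k) • z = -z := fun z => neg_one_smul k z
      rw [if_neg h, (hε2 g).resolve_left h, e, e', map_neg, map_neg, lam_bc])
  exact LinearMap.congr_fun h1 x

theorem Hyp.good [IsAlgClosed L] (h : Hyp ρ σ B) {i j : ι} (hij : i ≠ j) :
    Gd (T := fun i => L ⊗[k] T i) (spn L (LL ρ)) i j := by
  have hfr : ∀ i, finrank L (L ⊗[k] T i) = finrank k (T i) := fun i => Module.finrank_baseChange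
  obtain ⟨o, ho⟩ := h.exists_mb (L := L) i
  obtain ⟨o', ho'⟩ := h.exists_mb (L := L) j
  by_cases h8 : finrank k (T i) = 8
  · have h8' := h.d8 i j hij h8
    rcases o'.good_or o Hyp.spn_bk (by rw [hfr]; exact h8') with h1 | ⟨ψ, h0, hψ, hu⟩
    · exact o.good_symm o' Hyp.spn_bk h1
    · exact (h.no_psi hij.symm h0 hψ hu).elim
  · rcases o.good_or o' Hyp.spn_bk (by rw [hfr]; exact h8) with h1 | ⟨ψ, h0, hψ, hu⟩
    · exact h1
    · exact (h.no_psi hij h0 hψ hu).elim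

theorem Hyp.mem_spn [IsAlgClosed L] [Fintype ι] (h : Hyp ρ σ B)
    {E : ∀ i, (L ⊗[k] T i) →ₗ[L] (L ⊗[k] T i)} (hE : ∀ i, Skew (bcB L (B i)) (E i)) :
    E ∈ spn L (LL ρ) := by
  classical
  have key : ∀ i, ∃ E' ∈ spn L (LL ρ), (∀ a, a ≠ i → E' a = 0) ∧ E' i = E i := by
    intro i
    obtain ⟨o, ho⟩ := h.exists_mb (L := L) i
    have h1 : E i ∈ rs (T := fun i => L ⊗[k] T i) (kl (spn L (LL ρ)) {a | a ≠ i}) i := by
      refine skew_mem (B := bcB L (B i)) (bcB_symm (h.sy i)) (bcB_nondeg (h.nd i))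
        (fun x y => ?_) (hE i)
      obtain ⟨E', hE', h2, h3⟩ := o.good_finset Hyp.spn_bk (univ.erase i)
        (fun a ha => h.good (Finset.ne_of_mem_erase ha).symm) x y
      rw [ho] at h3
      exact ⟨E', ⟨hE', fun a ha => h2 a (Finset.mem_erase.2 ⟨ha, Finset.mem_univ a⟩)⟩, h3⟩
    obtain ⟨E', hE', h2⟩ := h1
    exact ⟨E', hE'.1, fun a ha => hE'.2 a ha, h2⟩
  choose F hF hF0 hFi using key
  have h1 : E = ∑ i, F i := by
    funext a
    rw [Finset.sum_apply, Finset.sum_eq_single a (fun b _ hb => hF0 b a hb.symm)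
      (fun h => absurd (Finset.mem_univ a) h), hFi]
  rw [h1]
  exact Submodule.sum_mem _ fun i _ => hF i

end cl

/-- **The main theorem over one field.** -/
theorem Hyp.mem_LL [Fintype ι] (h : Hyp ρ σ B) {D : ∀ i, T i →ₗ[k] T i}
    (hD : ∀ i, Skew (B i) (D i)) : D ∈ LL ρ := by
  let L := AlgebraicClosure k
  have : CharZero L := charZero_of_injective_algebraMap (algebraMap k L).injective
  intro S _ _ s f hf
  obtain ⟨F, hF⟩ := exists_bc (K := L) f
  rw [kil_bc hF]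
  exact spn_kil (𝔪 := LL ρ) (fun D' hD' => (kil_bc hF).1 (hD' S s f hf)) _
    (h.mem_spn (L := L) fun i => bcB_skew (hD i))

end Pool.Agent.X292.TG
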