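import Pool.Agent.X292.TG.Main

/-!
# Statement over all fields
-/

set_option linter.unusedSectionVars false

namespace Pool.Agent.X292.TG

open TensorProduct Module Function Finset Pool.Agent.TH125.Gal Pool.Agent.Y127.G
  Pool.Agent.Y127.C Pool.Agent.TH118.SG

/-- Some element `g` is unipotent with `(g - 1) ^ 3 = 0`, `(g - 1) ^ 2 ≠ 0` and `g - 1` of rank
two. -/
def Unip {k : Type} [Field k] {P : Type} [Group P] {V : Type} [AddCommGroup V] [Module k V]
    (r : P →* (V →ₗ[k] V)) : Prop :=
  ∃ g : P, (r g - 1 : Module.End k V) ^ 3 = 0 ∧ (r g - 1 : Module.End k V) ^ 2 ≠ 0 ∧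
    finrank k (LinearMap.range (r g - 1 : Module.End k V)) = 2

/-- Some element `g` has `g - 1` of rank one and some element has infinite order. -/
def Refl {k : Type} [Field k] {P : Type} [Group P] {V : Type} [AddCommGroup V] [Module k V]
    (r : P →* (V →ₗ[k] V)) : Prop :=
  (∃ g : P, finrank k (LinearMap.range (r g - 1 : Module.End k V)) = 1) ∧
    ∃ g : P, ∀ n : ℕ, 0 < n → r g ^ n ≠ 1

section

variable {k : Type} [Field k] [CharZero k] {P G : Type} [Group P] [Group G] {ι : Type}
  {V : ι → Type} [∀ i, AddCommGroup (V i)] [∀ i, Module k (V i)] [∀ i, FiniteDimensional k (V i)]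
  {ρ : ∀ i, P →* (V i →ₗ[k] V i)} {B : ∀ i, V i →ₗ[k] V i →ₗ[k] k}

/-- all coefficient fields follow from the base field -/
theorem all_fields (hsy : ∀ i x y, B i x y = B i y x)
    (hnd : ∀ i x, (∀ y, B i x y = 0) → x = 0) [Fintype ι]
    (h : ∀ D : ∀ i, V i →ₗ[k] V i, (∀ i, Skew (B i) (D i)) → D ∈ LL ρ)
    {K : Type} [Field K] [CharZero K] [Algebra k K] {M : Type} [AddCommGroup M] [Module K M]
    {S : Type} [Fintype S] [DecidableEq S] {s : S → ι}
    {f : MultilinearMap K (fun j => K ⊗[k] V (s j)) M}
    (hf : Fixd (T := fun i => K ⊗[k] V i) (bcR K ρ) s f)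
    {D : ∀ i, (K ⊗[k] V i) →ₗ[K] (K ⊗[k] V i)} (hD : ∀ i, Skew (bcB K (B i)) (D i)) :
    Kil (T := fun i => K ⊗[k] V i) s D f := by
  classical
  -- the operators
  let 𝔪 : Submodule k (∀ i, V i →ₗ[k] V i) :=
    { carrier := {D | ∀ i, Skew (B i) (D i)}
      zero_mem' := fun i => Submodule.zero_mem (SkewS (B i))
      add_mem' := fun hD hD' i => Submodule.add_mem (SkewS (B i)) (hD i) (hD' i)
      smul_mem' := fun c _ hD i => Submodule.smul_mem (SkewS (B i)) c (hD i) }
  have hmem : D ∈ spn K 𝔪 := by
    have key : ∀ i, ∃ E' ∈ spn K 𝔪, (∀ a, a ≠ i → E' a = 0) ∧ E' i = D i := by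
      intro i
      have h1 : D i ∈ rs (T := fun i => K ⊗[k] V i) (kl (spn K 𝔪) {a | a ≠ i}) i := by
        refine skew_mem (B := bcB K (B i)) (bcB_symm (hsy i)) (bcB_nondeg (hnd i))
          (fun x y => ?_) (hD i)
        refine oo_mem_bc (fun x y => ?_) x y
        refine ⟨bcD K (fun a => if h : a = i then by subst h; exact oo (B a) 1 x y else 0),
          ⟨bcD_mem fun a => ?_, fun a ha => ?_⟩, ?_⟩
        · by_cases h : a = i
          · subst h
            rw [dif_pos rfl]
            exact skew_one (hsy a) x y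
          · rw [dif_neg h]
            exact Submodule.zero_mem (SkewS (B a))
        · change ((if h : a = i then _ else 0 : V a →ₗ[k] V a)).baseChange K = 0
          rw [dif_neg ha]
          exact LinearMap.baseChange_zero
        · change ((if h : i = i then _ else 0 : V i →ₗ[k] V i)).baseChange K = _
          rw [dif_pos rfl]
      obtain ⟨E', hE', h2⟩ := h1
      exact ⟨E', hE'.1, fun a ha => hE'.2 a ha, h2⟩
    choose F hF hF0 hFi using key
    have h1 : D = ∑ i, F i := by
      funext a
      rw [Finset.sum_apply, Finset.sum_eq_single a (fun b _ hb => hF0 b a hb.symm)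
        (fun h => absurd (Finset.mem_univ a) h), hFi]
    rw [h1]
    exact Submodule.sum_mem _ fun i _ => hF i
  refine spn_kil (𝔪 := 𝔪) (fun D' hD' => ?_) D hmem
  -- the forms
  have hpure : ∀ v : ∀ j, V (s j), ∑ j, f (update (fun j => (1 : K) ⊗ₜ[k] v j) j
      (bcD K D' (s j) ((1 : K) ⊗ₜ[k] v j))) = 0 := by
    intro v
    let _ : Module k M := Module.compHom M (algebraMap k K)
    have : IsScalarTower k K M := ⟨fun a b m => by
      rw [Algebra.smul_def, mul_smul]
      rfl⟩
    rw [← Module.forall_dual_apply_eq_zero_iff k]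
    intro lam
    let f' : MultilinearMap k (fun j => V (s j)) k :=
      { toFun := fun v => lam (f fun j => (1 : K) ⊗ₜ[k] v j)
        map_update_add' := by
          intro _ v j x y
          have e : ∀ x, (fun i => (1 : K) ⊗ₜ[k] (update v j x i)) =
              update (fun i => (1 : K) ⊗ₜ[k] v i) j ((1 : K) ⊗ₜ[k] x) := by
            intro x
            funext i
            by_cases h : i = j
            · subst h
              rw [update_self, update_self]
            · rw [update_of_ne h, update_of_ne h]
          rw [e, e, e, TensorProduct.tmul_add, f.map_update_add, map_add]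
        map_update_smul' := by
          intro _ v j c x
          have e : ∀ x, (fun i => (1 : K) ⊗ₜ[k] (update v j x i)) =
              update (fun i => (1 : K) ⊗ₜ[k] v i) j ((1 : K) ⊗ₜ[k] x) := by
            intro x
            funext i
            by_cases h : i = j
            · subst h
              rw [update_self, update_self]
            · rw [update_of_ne h, update_of_ne h]
          rw [e, e, TensorProduct.tmul_smul, ← algebraMap_smul K c, f.map_update_smul,
            algebraMap_smul, map_smul] }
    have hf' : Fixd ρ s f' := by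
      obtain ⟨Δ, hΔ, h1⟩ := hf
      refine ⟨Δ, hΔ, fun g hg v => ?_⟩
      change lam (f fun j => (1 : K) ⊗ₜ[k] (ρ (s j) g (v j))) = lam (f fun j => (1 : K) ⊗ₜ[k] v j)
      rw [← h1 g hg fun j => (1 : K) ⊗ₜ[k] v j]
      rfl
    have h1 := h D' hD' S s f' hf' v
    rw [map_sum]
    rw [← h1]
    refine Finset.sum_congr rfl fun j _ => ?_
    change _ = lam (f fun i => (1 : K) ⊗ₜ[k] (update v j (D' (s j) (v j)) i))
    rw [← upd_tmul]
    rfl
  have h1 : (∑ j, f.compLinearMap (fun i => if i = j then bcD K D' (s i) else LinearMap.id)) =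
      0 := by
    refine bc_ext fun v => ?_
    rw [_root_.sum_apply]
    have h2 : ∀ j, f.compLinearMap (fun i => if i = j then bcD K D' (s i) else LinearMap.id)
        (fun j => (1 : K) ⊗ₜ[k] v j) = f (update (fun j => (1 : K) ⊗ₜ[k] v j) j
          (bcD K D' (s j) ((1 : K) ⊗ₜ[k] v j))) := fun j =>
      upd_comp (T := fun i => K ⊗[k] V i) f (bcD K D') j _
    rw [Finset.sum_congr rfl fun j _ => h2 j, hpure v]
    rfl
  intro v
  have h2 := congrArg (fun G : MultilinearMap K (fun j => K ⊗[k] V (s j)) M => G v) h1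
  simp only [_root_.sum_apply, _root_.zero_apply] at h2
  rw [← h2]
  exact Finset.sum_congr rfl fun j _ =>
    (upd_comp (T := fun i => K ⊗[k] V i) f (bcD K D') j v).symm

/-- **The theorem.** -/
theorem main [Fintype ι] (hsy : ∀ i x y, B i x y = B i y x)
    (hnd : ∀ i x, (∀ y, B i x y = 0) → x = 0)
    (hrB : ∀ i g x y, B i (ρ i g x) (ρ i g y) = B i x y)
    (hdim : ∀ i, finrank k (V i) = 3 ∨ 5 ≤ finrank k (V i))
    (hd8 : ∀ i j, i ≠ j → finrank k (V i) = 8 → finrank k (V j) ≠ 8)
    (hloc : ∀ i, Unip (ρ i) ∨ Refl (ρ i)) {F : Type} [Field F] [CharZero F] [Algebra k F]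
    {σ : ∀ i, G →* ((F ⊗[k] V i) →ₗ[F] (F ⊗[k] V i))}
    (hsB : ∀ i g x y, bcB F (B i) (σ i g x) (σ i g y) = bcB F (B i) x y)
    (hSI : ∀ i, SI (σ i))
    (hnrm : ∀ (γ : G) (S : Type) [Fintype S] [DecidableEq S] (s : S → ι)
      (f : MultilinearMap F (fun j => F ⊗[k] V (s j)) F),
      Fixd (T := fun i => F ⊗[k] V i) (bcR F ρ) s f →
        Fixd (T := fun i => F ⊗[k] V i) (bcR F ρ) s (f.compLinearMap fun j => σ (s j) γ))
    (hniso : ∀ i j, i ≠ j → ∀ (ψ : (F ⊗[k] V j) →ₗ[F] (F ⊗[k] V i)) (ε : G → F),
      (∀ g, ε g = 1 ∨ ε g = -1) → (∀ g x, ψ (σ j g x) = ε g • σ i g (ψ x)) → ψ = 0)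
    {K : Type} [Field K] [CharZero K] [Algebra k K] {M : Type} [AddCommGroup M] [Module K M]
    {S : Type} [Fintype S] [DecidableEq S] {s : S → ι}
    {f : MultilinearMap K (fun j => K ⊗[k] V (s j)) M}
    (hf : Fixd (T := fun i => K ⊗[k] V i) (bcR K ρ) s f)
    {D : ∀ i, (K ⊗[k] V i) →ₗ[K] (K ⊗[k] V i)} (hD : ∀ i, Skew (bcB K (B i)) (D i)) :
    Kil (T := fun i => K ⊗[k] V i) s D f := by
  have hfr : ∀ i, finrank F (F ⊗[k] V i) = finrank k (V i) := fun i => Module.finrank_baseChange
  have hrB' : ∀ i g x y, bcB F (B i) (bcR F ρ i g x) (bcR F ρ i g y) = bcB F (B i) x y :=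
    fun i g x y => bcB_isom (hrB i g) x y
  have hmul : ∀ (i : ι) (A : Module.End k (V i)), A.baseChange F = 0 → A = 0 := by
    intro i A hA
    obtain ⟨lam, hlam⟩ := exists_lam k F
    have h1 : dsc lam (A.baseChange F) = dsc lam ((0 : V i →ₗ[k] V i).baseChange F) := by
      rw [hA, LinearMap.baseChange_zero]
    rwa [dsc_bc lam hlam, dsc_bc lam hlam] at h1
  have hH : Hyp (T := fun i => F ⊗[k] V i) (bcR F ρ) σ (fun i => bcB F (B i)) :=
    { sy := fun i => bcB_symm (hsy i)
      nd := fun i => bcB_nondeg (hnd i)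
      rB := hrB'
      sB := hsB
      dim := fun i => by rw [hfr]; exact hdim i
      d8 := fun i j hij => by rw [hfr, hfr]; exact hd8 i j hij
      nrm := hnrm
      niso := hniso
      all := by
        intro i x y
        rcases hloc i with ⟨g, h3, h2, hr⟩ | ⟨⟨r, hr⟩, g, hg⟩
        · refine all_of_log (T := fun i => F ⊗[k] V i) (σ := σ) (bcB_symm (hsy i))
            (bcB_nondeg (hnd i)) (hrB' i) (hsB i) (hSI i) hnrm (g := g) ?_ ?_ ?_ x y
          · rw [bcR_apply, ← bc_one, ← bc_sub, ← bc_pow, h3]
            exact LinearMap.baseChange_zero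
          · rw [bcR_apply, ← bc_one, ← bc_sub, ← bc_pow]
            exact fun h => h2 (hmul i _ h)
          · rw [bcR_apply, ← bc_one, ← bc_sub]
            have e : (ρ i g - 1 : Module.End k (V i)).baseChange F =
                ((LinearMap.range (ρ i g - 1 : Module.End k (V i))).subtype.baseChange F) ∘ₗ
                  ((ρ i g - 1 : Module.End k (V i)).rangeRestrict.baseChange F) := by
              rw [← LinearMap.baseChange_comp]
              rfl
            rw [e]
            refine le_trans (Submodule.finrank_mono (LinearMap.range_comp_le_range _ _)) ?_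
            refine le_trans (LinearMap.finrank_range_le _) ?_
            rw [Module.finrank_baseChange, hr]
        · obtain ⟨δ, hδ0, hδ⟩ := finrank_eq_one_iff'.1 hr
          have hδ' : ∀ x : V i, ∃ c : k, ρ i r x = x + c • (δ : V i) := by
            intro x
            obtain ⟨c, hc⟩ := hδ ⟨_, LinearMap.mem_range_self (ρ i r - 1 : Module.End k (V i)) x⟩
            refine ⟨c, ?_⟩
            have h1 := congrArg Subtype.val hc
            change c • (δ : V i) = ρ i r x - x at h1
            rw [h1]
            abel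
          refine all_of_refl (T := fun i => F ⊗[k] V i) (σ := σ) (bcB_symm (hsy i))
            (bcB_nondeg (hnd i)) (hrB' i) (hsB i) (hSI i) hnrm (r := r)
            (δ := (1 : F) ⊗ₜ[k] (δ : V i)) (fun z => ?_) ?_ (g := g) ?_ x y
          · induction z using TensorProduct.induction_on with
            | zero => exact ⟨0, by rw [map_zero, zero_smul, add_zero]⟩
            | tmul c w =>
              obtain ⟨c', hc'⟩ := hδ' w
              refine ⟨c * algebraMap k F c', ?_⟩
              rw [bcR_apply, LinearMap.baseChange_tmul, hc', TensorProduct.tmul_add,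
                TensorProduct.tmul_smul, tm_eq c (δ : V i), ← algebraMap_smul F c', smul_smul,
                mul_comm]
            | add z z' hz hz' =>
              obtain ⟨c, hc⟩ := hz
              obtain ⟨c', hc'⟩ := hz'
              refine ⟨c + c', ?_⟩
              rw [map_add, hc, hc', add_smul]
              abel
          · intro h
            have h1 : (ρ i r - 1 : Module.End k (V i)) = 0 := hmul i _ (by
              rw [bc_sub, bc_one, ← bcR_apply, h]
              exact sub_self (1 : Module.End F (F ⊗[k] V i)))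
            rw [h1, LinearMap.range_zero, finrank_bot] at hr
            exact zero_ne_one hr
          · intro n hn h
            apply hg n hn
            rw [← sub_eq_zero]
            refine hmul i _ ?_
            rw [bc_sub, bc_one, bc_pow, ← bcR_apply, h]
            exact sub_self (1 : Module.End F (F ⊗[k] V i)) }
  refine all_fields hsy hnd (fun D hD S _ _ s f hf => ?_) hf hD
  obtain ⟨f', hf'⟩ := exists_bc (K := F) f
  rw [kil_bc hf']
  exact hH.mem_LL (fun i => bcB_skew (hD i)) S s f' (fixd_bc hf' hf)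

end

end Pool.Agent.X292.TG
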